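import Pool.Agent.Helper12.MVP.Exp

/-!
MV-P2. The functional `JM` is multilinear and bounded on the class `Gc c` (`c > 0`, all column sums of `M` equal to 2).

Proofs. `sum_row`: `∑_f row M f x = ∑_e (∑_f M f e) x_e = 2 ∑ x_e`. On the orthant `row M f x ≥ 0`, so with
`|g_f p| ≤ N_f e^{-c p}` (`p ≥ 0`; `N_f ≥ 0` by `p = 0`): `|∏_f g_f (row M f x)| ≤ ∏ N_f · e^{-2c ∑ x_e}`, integrable with integral
`∏ N_f (1/(2c))^{|ι|}` (`exp_orthant_integrable`, `exp_orthant_integral` with `b_e = 2c`). The integrand is continuous, hence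
measurable (`row M f` is continuous). `JM_add`: `∏_f` splits in the factor `i` (`Finset.prod_update_of_mem`), the function
`update g i u` is again in the class, `integral_add`. `JM_smul`: `integral_const_mul` (no integrability needed).
-/

namespace Pool.Agent.Helper12.MVP

open Finset MeasureTheory Filter Topology Pool.Agent.Helper60.MV

theorem row_continuous {φ ι : Type} [Fintype ι] (M : φ → ι → ℕ) (f : φ) :
    Continuous (row M f) := by
  unfold row
  fun_prop

theorem row_nonneg {φ ι : Type} [Fintype ι] (M : φ → ι → ℕ) (f : φ) (x : ι → ℝ)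
    (hx : ∀ e, 0 ≤ x e) : 0 ≤ row M f x := by
  unfold row
  exact Finset.sum_nonneg fun e _ => mul_nonneg (Nat.cast_nonneg _) (hx e)

theorem sum_row {φ ι : Type} [Fintype φ] [Fintype ι] (M : φ → ι → ℕ)
    (hM : ∀ e, ∑ f, M f e = 2) (x : ι → ℝ) : ∑ f, row M f x = 2 * ∑ e, x e := by
  unfold row
  rw [Finset.sum_comm, Finset.mul_sum]
  apply Finset.sum_congr rfl
  intro e _
  rw [← Finset.sum_mul]
  congr 1
  have := hM e
  exact_mod_cast this

private theorem orthant_meas (ι : Type) [Fintype ι] :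
    MeasurableSet {x : ι → ℝ | ∀ e, 0 < x e} := by
  have : {x : ι → ℝ | ∀ e, 0 < x e} = Set.pi Set.univ (fun _ => Set.Ioi (0:ℝ)) := by
    ext x
    simp
  rw [this]
  exact MeasurableSet.univ_pi fun _ => measurableSet_Ioi

private theorem prod_le {φ ι : Type} [Fintype φ] [Fintype ι] (M : φ → ι → ℕ)
    (hM : ∀ e, ∑ f, M f e = 2) (c : ℝ) (g : φ → ℝ → ℝ)
    (N : φ → ℝ) (hN : ∀ f p, 0 ≤ p → |g f p| ≤ N f * Real.exp (-(c * p)))
    (x : ι → ℝ) (hx : ∀ e, 0 < x e) :
    ‖∏ f, g f (row M f x)‖ ≤ (∏ f, N f) * Real.exp (-(∑ e, (2 * c) * x e)) := by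
  rw [Real.norm_eq_abs, Finset.abs_prod]
  calc ∏ f, |g f (row M f x)| ≤ ∏ f, (N f * Real.exp (-(c * row M f x))) := by
        apply Finset.prod_le_prod
        · intro f _
          exact abs_nonneg _
        · intro f _
          exact hN f _ (row_nonneg M f x fun e => (hx e).le)
    _ = (∏ f, N f) * Real.exp (-(∑ e, (2 * c) * x e)) := by
        rw [Finset.prod_mul_distrib, ← Real.exp_sum]
        congr 2
        rw [Finset.sum_neg_distrib, ← Finset.mul_sum, sum_row M hM x, ← Finset.mul_sum]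
        ring

private theorem prod_cont {φ ι : Type} [Fintype φ] [Fintype ι] (M : φ → ι → ℕ)
    (g : φ → ℝ → ℝ) (hg : ∀ f, Continuous (g f)) :
    Continuous (fun x : ι → ℝ => ∏ f, g f (row M f x)) := by
  apply continuous_finsetProd
  intro f _
  exact (hg f).comp (row_continuous M f)

theorem JM_integrable {φ ι : Type} [Fintype φ] [Fintype ι] (M : φ → ι → ℕ)
    (hM : ∀ e, ∑ f, M f e = 2) (c : ℝ) (hc : 0 < c) (g : φ → ℝ → ℝ) (hg : ∀ f, Gc c (g f)) :
    IntegrableOn (fun x : ι → ℝ => ∏ f, g f (row M f x)) {x : ι → ℝ | ∀ e, 0 < x e} := by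
  choose N hN using fun f => (hg f).bd
  have h1 := (exp_orthant_integrable (fun _ : ι => 2 * c) (fun _ => by positivity)).const_mul
    (∏ f, N f)
  refine Integrable.mono' h1 ?_ ?_
  · exact (prod_cont M g fun f => (hg f).cont).aestronglyMeasurable
  · rw [ae_restrict_iff' (orthant_meas ι)]
    exact Filter.Eventually.of_forall fun x hx => prod_le M hM c g N hN x hx

theorem JM_bound {φ ι : Type} [Fintype φ] [Fintype ι] (M : φ → ι → ℕ)
    (hM : ∀ e, ∑ f, M f e = 2) (c : ℝ) (hc : 0 < c) (g : φ → ℝ → ℝ) (hg : ∀ f, Gc c (g f))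
    (N : φ → ℝ) (hN : ∀ f p, 0 ≤ p → |g f p| ≤ N f * Real.exp (-(c * p))) :
    |JM M g| ≤ (1 / (2 * c)) ^ (Fintype.card ι) * ∏ f, N f := by
  have h1 := (exp_orthant_integrable (fun _ : ι => 2 * c) (fun _ => by positivity)).const_mul
    (∏ f, N f)
  have h2 : ‖JM M g‖ ≤ ∫ x in {x : ι → ℝ | ∀ e, 0 < x e},
      (∏ f, N f) * Real.exp (-(∑ e, (2 * c) * x e)) := by
    apply norm_integral_le_of_norm_le h1
    rw [ae_restrict_iff' (orthant_meas ι)]
    exact Filter.Eventually.of_forall fun x hx => prod_le M hM c g N hN x hx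
  rw [integral_const_mul, exp_orthant_integral (fun _ : ι => 2 * c) (fun _ => by positivity),
    Finset.prod_const, Finset.card_univ, mul_comm] at h2
  exact h2

theorem JM_add {φ ι : Type} [Fintype φ] [DecidableEq φ] [Fintype ι] (M : φ → ι → ℕ)
    (hM : ∀ e, ∑ f, M f e = 2) (c : ℝ) (hc : 0 < c) (g : φ → ℝ → ℝ) (hg : ∀ f, Gc c (g f))
    (i : φ) (u v : ℝ → ℝ) (hu : Gc c u) (hv : Gc c v) :
    JM M (Function.update g i (u + v)) =
      JM M (Function.update g i u) + JM M (Function.update g i v) := by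
  have hupd : ∀ w : ℝ → ℝ, Gc c w → ∀ f, Gc c (Function.update g i w f) := by
    intro w hw f
    by_cases h : f = i
    · rw [h, Function.update_self]
      exact hw
    · rw [Function.update_of_ne h]
      exact hg f
  have hsplit : ∀ (w : ℝ → ℝ) (x : ι → ℝ), ∏ f, Function.update g i w f (row M f x) =
      w (row M i x) * ∏ f ∈ univ.erase i, g f (row M f x) := by
    intro w x
    rw [← Finset.mul_prod_erase univ _ (Finset.mem_univ i), Function.update_self]
    congr 1
    apply Finset.prod_congr rfl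
    intro f hf
    rw [Function.update_of_ne (Finset.ne_of_mem_erase hf)]
  unfold JM
  rw [← integral_add (JM_integrable M hM c hc _ (hupd u hu))
    (JM_integrable M hM c hc _ (hupd v hv))]
  congr 1
  funext x
  rw [hsplit, hsplit, hsplit, Pi.add_apply]
  ring

theorem JM_smul {φ ι : Type} [Fintype φ] [DecidableEq φ] [Fintype ι] (M : φ → ι → ℕ)
    (g : φ → ℝ → ℝ) (i : φ) (a : ℝ) (u : ℝ → ℝ) :
    JM M (Function.update g i (a • u)) = a * JM M (Function.update g i u) := by
  have hsplit : ∀ (w : ℝ → ℝ) (x : ι → ℝ), ∏ f, Function.update g i w f (row M f x) =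
      w (row M i x) * ∏ f ∈ univ.erase i, g f (row M f x) := by
    intro w x
    rw [← Finset.mul_prod_erase univ _ (Finset.mem_univ i), Function.update_self]
    congr 1
    apply Finset.prod_congr rfl
    intro f hf
    rw [Function.update_of_ne (Finset.ne_of_mem_erase hf)]
  unfold JM
  rw [← integral_const_mul]
  congr 1
  funext x
  rw [hsplit, hsplit, Pi.smul_apply, smul_eq_mul]
  ring

end Pool.Agent.Helper12.MVP
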