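import Pool.Agent.Helper12.MVP.Defs

/-!
MV-P8. The coefficient of `∏_i X_i` (all exponents one).

Proofs. `∏_f X (lab f) = monomial (∑_f single (lab f) 1) 1`, and `∑_f single (lab f) 1 = ∑_i single i 1` iff every `i` has exactly one
preimage, i.e. `lab` is bijective (`coeff_prod_X`). `coeff_left`: sum over `lab` with the indicator of bijectivity, reindexed by
`F ≃ α` (`Equiv.ofBijective`). `coeff_right`: by linearity in `R` (`MvPolynomial.aeval` of `R = ∑_{m ∈ support} C (coeff m) ·
∏_k X_k^{m_k}`; the value of the monomial `m` is `∏_{k ∈ m.toMultiset} (∑_i C (t i k) X_i)`, i.e. with `L = m.toMultiset.toList`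
`∏_{j : Fin L.length} ∑_i C (t i (L.get j)) X_i = ∑_{lab : Fin L.length → α} (∏_j C (t (lab j) (L.get j))) ∏_j X (lab j)`
(`Finset.prod_univ_sum`, `Fintype.piFinset_univ`), and by `coeff_left` its coefficient is `perL t L`.
-/

namespace Pool.Agent.Helper12.MVP

open Finset Pool.Agent.Helper60.MV

theorem ones_iff {F α : Type} [Fintype F] [Fintype α] [DecidableEq α] (lab : F → α) :
    (∑ i : α, Finsupp.single i 1 = ∑ f : F, Finsupp.single (lab f) (1 : ℕ)) ↔
      Function.Bijective lab := by
  classical
  have hL : ∀ a : α, (∑ i : α, Finsupp.single i (1:ℕ)) a = 1 := by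
    intro a
    rw [Finsupp.finsetSum_apply]
    simp [Finsupp.single_apply]
  have hR : ∀ a : α, (∑ f : F, Finsupp.single (lab f) (1:ℕ)) a =
      (univ.filter (fun f => lab f = a)).card := by
    intro a
    rw [Finsupp.finsetSum_apply, Finset.card_filter]
    refine Finset.sum_congr rfl (fun f _ => ?_)
    rw [Finsupp.single_apply]
  constructor
  · intro h
    have h1 : ∀ a : α, (univ.filter (fun f => lab f = a)).card = 1 := by
      intro a
      rw [← hR a, ← h, hL a]
    constructor
    · intro f g hfg
      have h2 := h1 (lab g)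
      rw [Finset.card_eq_one] at h2
      obtain ⟨x, hx⟩ := h2
      have hf : f ∈ univ.filter (fun f => lab f = lab g) := by simp [hfg]
      have hg : g ∈ univ.filter (fun f => lab f = lab g) := by simp
      rw [hx, Finset.mem_singleton] at hf hg
      rw [hf, hg]
    · intro a
      have h2 := h1 a
      rw [Finset.card_eq_one] at h2
      obtain ⟨x, hx⟩ := h2
      have hxm : x ∈ univ.filter (fun f => lab f = a) := by
        rw [hx]
        exact Finset.mem_singleton_self x
      exact ⟨x, (Finset.mem_filter.mp hxm).2⟩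
  · intro h
    ext a
    rw [hL a, hR a]
    symm
    rw [Finset.card_eq_one]
    obtain ⟨x, hx⟩ := h.2 a
    refine ⟨x, ?_⟩
    ext y
    rw [Finset.mem_filter, Finset.mem_singleton]
    constructor
    · intro hy
      exact h.1 (hy.2.trans hx.symm)
    · intro hy
      rw [hy]
      exact ⟨Finset.mem_univ _, hx⟩

theorem prod_X_eq {F α : Type} [Fintype F] (lab : F → α) :
    (∏ f, (MvPolynomial.X (lab f) : MvPolynomial α ℝ)) =
      MvPolynomial.monomial (∑ f : F, Finsupp.single (lab f) (1 : ℕ)) 1 := by
  classical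
  have h : ∀ s : Finset F, (∏ f ∈ s, (MvPolynomial.X (lab f) : MvPolynomial α ℝ)) =
      MvPolynomial.monomial (∑ f ∈ s, Finsupp.single (lab f) (1 : ℕ)) 1 := by
    intro s
    induction s using Finset.induction_on with
    | empty => simp
    | insert a s ha ih =>
      rw [Finset.prod_insert ha, Finset.sum_insert ha, ih, MvPolynomial.X,
        MvPolynomial.monomial_mul, one_mul]
  exact h univ

theorem coeff_prod_X {F α : Type} [Fintype F] [Fintype α] [DecidableEq α] (lab : F → α) :
    MvPolynomial.coeff (∑ i : α, Finsupp.single i 1)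
      (∏ f, (MvPolynomial.X (lab f) : MvPolynomial α ℝ)) =
      (by classical exact if Function.Bijective lab then 1 else 0) := by
  classical
  rw [prod_X_eq, MvPolynomial.coeff_monomial]
  by_cases h : Function.Bijective lab
  · rw [if_pos ((ones_iff lab).mpr h).symm, if_pos h]
  · rw [if_neg (fun h' => h ((ones_iff lab).mp h'.symm)), if_neg h]

theorem coeff_left {F α : Type} [Fintype F] [DecidableEq F] [Fintype α] [DecidableEq α]
    (a : (F → α) → ℝ) :
    MvPolynomial.coeff (∑ i : α, Finsupp.single i 1)
      (∑ lab : F → α, MvPolynomial.C (a lab) *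
        ∏ f, (MvPolynomial.X (lab f) : MvPolynomial α ℝ)) = ∑ lab : F ≃ α, a lab := by
  classical
  rw [MvPolynomial.coeff_sum]
  have h1 : ∀ lab : F → α, MvPolynomial.coeff (∑ i : α, Finsupp.single i 1)
      (MvPolynomial.C (a lab) * ∏ f, (MvPolynomial.X (lab f) : MvPolynomial α ℝ)) =
      if Function.Bijective lab then a lab else 0 := by
    intro lab
    rw [MvPolynomial.coeff_C_mul, coeff_prod_X]
    split_ifs <;> simp
  simp only [h1]
  rw [← Finset.sum_filter]
  symm
  refine Finset.sum_bij (fun (e : F ≃ α) _ => (e : F → α)) ?_ ?_ ?_ ?_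
  · intro e _
    rw [Finset.mem_filter]
    exact ⟨Finset.mem_univ _, e.bijective⟩
  · intro e _ e' _ h
    exact Equiv.coe_fn_injective h
  · intro lab hlab
    rw [Finset.mem_filter] at hlab
    exact ⟨Equiv.ofBijective lab hlab.2, Finset.mem_univ _, rfl⟩
  · intro e _
    rfl

theorem coeff_list {α : Type} [Fintype α] [DecidableEq α] (t : α → ℕ → ℝ) (L : List ℕ) :
    MvPolynomial.coeff (∑ i : α, Finsupp.single i 1)
      ((L.map (fun k : ℕ => ∑ i : α, MvPolynomial.C (t i k) *
        (MvPolynomial.X i : MvPolynomial α ℝ))).prod) = perL t L := by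
  have h1 : (L.map (fun k : ℕ => ∑ i : α, MvPolynomial.C (t i k) *
        (MvPolynomial.X i : MvPolynomial α ℝ))).prod =
      ∏ j : Fin L.length, ∑ i : α, MvPolynomial.C (t i (L.get j)) *
        (MvPolynomial.X i : MvPolynomial α ℝ) := by
    rw [← List.prod_ofFn]
    congr 1
    apply List.ext_get
    · simp
    · intro n h1 h2
      simp
  rw [h1, Finset.prod_univ_sum]
  have h2 : ∀ lab ∈ Fintype.piFinset (fun _ : Fin L.length => (univ : Finset α)),
      ∏ j : Fin L.length, (MvPolynomial.C (t (lab j) (L.get j)) *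
        (MvPolynomial.X (lab j) : MvPolynomial α ℝ)) =
      MvPolynomial.C (∏ j, t (lab j) (L.get j)) *
        ∏ j, (MvPolynomial.X (lab j) : MvPolynomial α ℝ) := by
    intro lab _
    rw [Finset.prod_mul_distrib, map_prod]
  rw [Finset.sum_congr rfl h2, Fintype.piFinset_univ,
    coeff_left (fun lab : Fin L.length → α => ∏ j, t (lab j) (L.get j))]
  rfl

theorem coeff_right {α : Type} [Fintype α] [DecidableEq α] (t : α → ℕ → ℝ)
    (R : MvPolynomial ℕ ℝ) :
    MvPolynomial.coeff (∑ i : α, Finsupp.single i 1)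
      (MvPolynomial.aeval (fun k : ℕ => ∑ i : α, MvPolynomial.C (t i k) *
        (MvPolynomial.X i : MvPolynomial α ℝ)) R) = perR t R := by
  rw [MvPolynomial.aeval_def, MvPolynomial.eval₂_eq, MvPolynomial.coeff_sum]
  unfold perR
  refine Finset.sum_congr rfl (fun m _ => ?_)
  rw [show (algebraMap ℝ (MvPolynomial α ℝ)) (MvPolynomial.coeff m R) =
    MvPolynomial.C (MvPolynomial.coeff m R) from rfl, MvPolynomial.coeff_C_mul]
  congr 1
  rw [← coeff_list]
  congr 1
  rw [← Multiset.prod_coe, ← Multiset.map_coe, Multiset.coe_toList, Finsupp.toMultiset_map,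
    Finsupp.prod_toMultiset, Finsupp.prod_mapDomain_index (fun _ => pow_zero _)
      (fun _ _ _ => pow_add _ _ _)]
  rfl

end Pool.Agent.Helper12.MVP
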