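import Pool.Agent.Helper12.MVP.Defs

/-!
MV-P3. The moment functional `mom k` on the class `Gc c`, `c > 0`.

Proofs. `∫_0^∞ e^{-s p} p^n dp = n!/s^{n+1}` (`integral_rpow_mul_exp_neg_mul_Ioi` and `Real.Gamma_nat_eq_factorial`, or
`Real.integral_pow_mul_exp_neg...`), integrable. So `mom_exp` with `n = 2k`, and `|mom k g| ≤ ∫ N e^{-c p} p^{2k}/(2k)!
= N c^{-(2k+1)}`. Integrability: continuous (so measurable) and dominated.
-/

namespace Pool.Agent.Helper12.MVP

open Finset MeasureTheory Filter Topology Pool.Agent.Helper60.MV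

private theorem t_int (M : ℕ) (b : ℝ) (hb : 0 < b) :
    IntegrableOn (fun a : ℝ => a ^ M * Real.exp (-(b * a))) (Set.Ioi 0) := by
  have h := integrableOn_rpow_mul_exp_neg_mul_rpow (p := 1) (s := (M : ℝ)) (b := b)
    (lt_of_lt_of_le (by norm_num) (Nat.cast_nonneg M)) one_pos hb
  refine h.congr_fun (fun x hx => ?_) measurableSet_Ioi
  simp only [Real.rpow_natCast, Real.rpow_one, neg_mul]

private theorem t_val (M : ℕ) (b : ℝ) (hb : 0 < b) :
    ∫ a in Set.Ioi (0:ℝ), a ^ M * Real.exp (-(b * a))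
      = (M.factorial : ℝ) * (1 / b) ^ (M + 1) := by
  have h := Real.integral_rpow_mul_exp_neg_mul_Ioi (a := (M : ℝ) + 1) (r := b)
    (by positivity) hb
  rw [Real.Gamma_nat_eq_factorial] at h
  rw [mul_comm]
  have h2 : (1 / b) ^ ((M : ℝ) + 1) = (1 / b) ^ (M + 1) := by
    rw [show (M : ℝ) + 1 = ((M + 1 : ℕ) : ℝ) by push_cast; ring, Real.rpow_natCast]
  rw [h2] at h
  rw [← h]
  refine setIntegral_congr_fun measurableSet_Ioi (fun x hx => ?_)
  simp only [add_sub_cancel_right, Real.rpow_natCast]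

theorem mom_exp_integrable (k : ℕ) (s : ℝ) (hs : 0 < s) :
    IntegrableOn (fun p : ℝ => Real.exp (-(s * p)) * (p ^ (2 * k) / ((2 * k).factorial : ℝ)))
      (Set.Ioi 0) := by
  have h := (t_int (2 * k) s hs).div_const ((2 * k).factorial : ℝ)
  refine (integrable_congr ?_).mp h
  refine Filter.Eventually.of_forall (fun p => ?_)
  simp only
  ring

theorem mom_exp (k : ℕ) (s : ℝ) (hs : 0 < s) :
    mom k (fun p => Real.exp (-(s * p))) = (1 / s) ^ (2 * k + 1) := by
  unfold mom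
  have h1 : ∀ p : ℝ, Real.exp (-(s * p)) * (p ^ (2 * k) / ((2 * k).factorial : ℝ)) =
      (p ^ (2 * k) * Real.exp (-(s * p))) / ((2 * k).factorial : ℝ) := by
    intro p
    ring
  simp only [h1]
  rw [integral_div, t_val (2 * k) s hs]
  have hf : ((2 * k).factorial : ℝ) ≠ 0 := by positivity
  field_simp

theorem mom_integrable (k : ℕ) (c : ℝ) (hc : 0 < c) (g : ℝ → ℝ) (hg : Gc c g) :
    IntegrableOn (fun p : ℝ => g p * (p ^ (2 * k) / ((2 * k).factorial : ℝ))) (Set.Ioi 0) := by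
  obtain ⟨B, hB⟩ := hg.bd
  have h := (mom_exp_integrable k c hc).const_mul B
  refine h.mono' ?_ ?_
  · have hcont : Continuous (fun p : ℝ => g p * (p ^ (2 * k) / ((2 * k).factorial : ℝ))) :=
      hg.cont.mul ((continuous_pow (2 * k)).div_const _)
    exact hcont.aestronglyMeasurable
  · refine (ae_restrict_mem measurableSet_Ioi).mono (fun p hp => ?_)
    have hp0 : (0:ℝ) ≤ p := le_of_lt hp
    have h3 : 0 ≤ p ^ (2 * k) / ((2 * k).factorial : ℝ) := by positivity
    rw [Real.norm_eq_abs, abs_mul, abs_of_nonneg h3, ← mul_assoc]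
    exact mul_le_mul_of_nonneg_right (hB p hp0) h3

theorem mom_bound (k : ℕ) (c : ℝ) (hc : 0 < c) (g : ℝ → ℝ) (hg : Gc c g) (N : ℝ)
    (hN : ∀ p, 0 ≤ p → |g p| ≤ N * Real.exp (-(c * p))) :
    |mom k g| ≤ (1 / c) ^ (2 * k + 1) * N := by
  have h0 : (1 / c) ^ (2 * k + 1) * N = ∫ p in Set.Ioi (0:ℝ),
      N * (Real.exp (-(c * p)) * (p ^ (2 * k) / ((2 * k).factorial : ℝ))) := by
    rw [integral_const_mul]
    have h1 := mom_exp k c hc
    unfold mom at h1
    rw [h1, mul_comm]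
  rw [h0]
  unfold mom
  rw [← Real.norm_eq_abs]
  refine norm_integral_le_of_norm_le ((mom_exp_integrable k c hc).const_mul N) ?_
  refine (ae_restrict_mem measurableSet_Ioi).mono (fun p hp => ?_)
  have hp0 : (0:ℝ) ≤ p := le_of_lt hp
  have h3 : 0 ≤ p ^ (2 * k) / ((2 * k).factorial : ℝ) := by positivity
  rw [Real.norm_eq_abs, abs_mul, abs_of_nonneg h3, ← mul_assoc]
  exact mul_le_mul_of_nonneg_right (hN p hp0) h3

theorem mom_add (k : ℕ) (c : ℝ) (hc : 0 < c) (u v : ℝ → ℝ) (hu : Gc c u) (hv : Gc c v) :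
    mom k (u + v) = mom k u + mom k v := by
  unfold mom
  rw [← integral_add (mom_integrable k c hc u hu) (mom_integrable k c hc v hv)]
  refine setIntegral_congr_fun measurableSet_Ioi (fun p _ => ?_)
  simp only [Pi.add_apply]
  ring

theorem mom_smul (k : ℕ) (a : ℝ) (u : ℝ → ℝ) : mom k (a • u) = a * mom k u := by
  unfold mom
  rw [← integral_const_mul]
  refine setIntegral_congr_fun measurableSet_Ioi (fun p _ => ?_)
  simp only [Pi.smul_apply, smul_eq_mul]
  ring

end Pool.Agent.Helper12.MVP
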