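import Pool.Agent.Helper12.MVP.Dens

/-!
MV-P5. A bounded multilinear functional vanishing on exponentials vanishes on all continuous functions vanishing for large `p`.

Proof. Claim for every `T : Finset α` (`Finset.induction_on`): `D g = 0` whenever for `i ∈ T` `g i` is continuous and zero for `p ≥ R`, and
for `i ∉ T` `g i` is an exponential `p ↦ e^{-s p}` with `c ≤ s`. `T = ∅` is `hexp`. Step `insert i0 T`: apply `dens` to
`D' u = D (update g i0 u)`; additivity and homogeneity from `hadd`, `hsmul` (all `g j` are in `Gc c` by `Gc_exp`, `Gc_of_vanish`);
boundedness: with `N_j` a bound of `g j` for `j ≠ i0` (`Gc.bd`), `|D' u| ≤ B · N · ∏_{j ≠ i0} N_j` (take the constant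
`B · ∏_{j ≠ i0} N_j`; `Finset.prod_update_of_mem`); on exponentials `D'` is zero by the induction hypothesis for `T`
(the family `update g i0 (e^{-s·})`). `T = univ` is the statement.
-/

namespace Pool.Agent.Helper12.MVP

open Finset MeasureTheory Filter Topology Pool.Agent.Helper60.MV

theorem multi_zero {α : Type} [Fintype α] [DecidableEq α] (c : ℝ) (D : (α → ℝ → ℝ) → ℝ)
    (hadd : ∀ g i u v, (∀ j, Gc c (g j)) → Gc c u → Gc c v →
      D (Function.update g i (u + v)) = D (Function.update g i u) + D (Function.update g i v))
    (hsmul : ∀ g i (a : ℝ) u, (∀ j, Gc c (g j)) → Gc c u →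
      D (Function.update g i (a • u)) = a * D (Function.update g i u))
    (B : ℝ) (hB : ∀ (g : α → ℝ → ℝ) (N : α → ℝ), (∀ i, Gc c (g i)) →
      (∀ i p, 0 ≤ p → |g i p| ≤ N i * Real.exp (-(c * p))) → |D g| ≤ B * ∏ i, N i)
    (hexp : ∀ s : α → ℝ, (∀ i, c ≤ s i) → D (fun i p => Real.exp (-(s i * p))) = 0)
    (g : α → ℝ → ℝ) (hg : ∀ i, Continuous (g i)) (R : ℝ) (hR : ∀ i p, R ≤ p → g i p = 0) :
    D g = 0 := by
  have key : ∀ T : Finset α, ∀ g : α → ℝ → ℝ,
      (∀ i ∈ T, Continuous (g i) ∧ ∀ p, R ≤ p → g i p = 0) →
      (∀ i, i ∉ T → ∃ s : ℝ, c ≤ s ∧ g i = fun p => Real.exp (-(s * p))) → D g = 0 := by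
    intro T
    induction T using Finset.induction_on with
    | empty =>
      intro g _ h2
      choose s hs1 hs2 using fun i => h2 i (Finset.notMem_empty i)
      have hgs : g = fun i p => Real.exp (-(s i * p)) := by
        funext i
        exact hs2 i
      rw [hgs]
      exact hexp s hs1
    | insert i0 T hi0 ih =>
      intro g h1 h2
      have hG : ∀ j, Gc c (g j) := by
        intro j
        by_cases hj : j ∈ insert i0 T
        · exact Gc_of_vanish c (g j) (h1 j hj).1 R (h1 j hj).2
        · obtain ⟨s, hs1, hs2⟩ := h2 j hj
          rw [hs2]
          exact Gc_exp c s hs1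
      choose Nf hNf using fun j => (hG j).bd
      have hup : Function.update g i0 (g i0) = g := Function.update_eq_self i0 g
      have hd := dens c (fun u => D (Function.update g i0 u))
        (fun u v hu hv => hadd g i0 u v hG hu hv)
        (fun a u hu => hsmul g i0 a u hG hu)
        (B * ∏ j ∈ Finset.univ \ {i0}, Nf j)
        (by
          intro u N hu hN
          have h3 := hB (Function.update g i0 u) (Function.update Nf i0 N)
            (by
              intro i
              by_cases hi : i = i0
              · subst hi
                rw [Function.update_self]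
                exact hu
              · rw [Function.update_of_ne hi]
                exact hG i)
            (by
              intro i p hp
              by_cases hi : i = i0
              · subst hi
                rw [Function.update_self, Function.update_self]
                exact hN p hp
              · rw [Function.update_of_ne hi, Function.update_of_ne hi]
                exact hNf i p hp)
          rw [Finset.prod_update_of_mem (Finset.mem_univ i0)] at h3
          calc |D (Function.update g i0 u)| ≤ B * (N * ∏ j ∈ Finset.univ \ {i0}, Nf j) := h3
            _ = B * (∏ j ∈ Finset.univ \ {i0}, Nf j) * N := by ring)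
        (by
          intro s hs
          apply ih
          · intro i hi
            have hne : i ≠ i0 := by
              rintro rfl
              exact hi0 hi
            rw [Function.update_of_ne hne]
            exact h1 i (Finset.mem_insert_of_mem hi)
          · intro i hi
            by_cases hi' : i = i0
            · subst hi'
              exact ⟨s, hs, Function.update_self _ _ _⟩
            · rw [Function.update_of_ne hi']
              exact h2 i (fun hc => (Finset.mem_insert.1 hc).elim hi' hi))
        (g i0) (h1 i0 (Finset.mem_insert_self _ _)).1 R (h1 i0 (Finset.mem_insert_self _ _)).2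
      simp only [hup] at hd
      exact hd
  exact key Finset.univ g (fun i _ => ⟨hg i, hR i⟩) (fun i hi => absurd (Finset.mem_univ i) hi)

end Pool.Agent.Helper12.MVP
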