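import Pool.Agent.Helper12.MVP.PolyId
import Pool.Agent.Helper12.MVP.Coef
import Pool.Agent.Helper12.MVP.Bound
import Pool.Agent.Helper12.MVP.Mom
import Pool.Agent.Helper12.MVP.Multi

/-!
MV-P9. The identity for bijective labels.

Proofs. `bij_exp`: compare in `poly_id` the coefficients of `∏_i X_i` (`coeff_left` for each `τ`, `coeff_right`).
`bij_all`: apply `multi_zero` with `c = 1` to `D g = (left side) - perR (fun i k => mom k (g i)) R`. Each term of the left side is
additive, homogeneous and bounded in each `g i`: for `lab : Face ≃ α`, `(fun f => update g i u (lab f)) = update (fun f => g (lab f))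
(lab.symm i) u`, so use `JM_add`, `JM_smul`, `JM_bound` with `N ∘ lab` (`∏_f N (lab f) = ∏_i N i`), `MT_col`. Each term of the right side
is a constant times `∏_j mom (L.get j) (g (π j))` with `π` a bijection, so each `g i` occurs in exactly one factor: additive and
homogeneous by `mom_add`, `mom_smul` and `Finset.prod_update_of_mem`-like arguments (or rewrite the product as `∏_i mom (L.get (π.symm i)) (g i)`
by `Equiv.prod_comp`), bounded by `mom_bound` with `c = 1`: `≤ ∏_i N i`. On exponentials `D = 0` by `bij_exp` and `mom_exp`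
(`s i ≥ 1 > 0`).
-/

namespace Pool.Agent.Helper12.MVP

open Finset MeasureTheory Filter Topology Pool.Agent.Helper60.MV

/-- bounded multilinear functionals -/
structure ML {α : Type} [Fintype α] [DecidableEq α] (D : (α → ℝ → ℝ) → ℝ) : Prop where
  add : ∀ (g : α → ℝ → ℝ) (i : α) (u v : ℝ → ℝ), (∀ j, Gc 1 (g j)) → Gc 1 u → Gc 1 v →
    D (Function.update g i (u + v)) = D (Function.update g i u) + D (Function.update g i v)
  smul : ∀ (g : α → ℝ → ℝ) (i : α) (a : ℝ) (u : ℝ → ℝ), (∀ j, Gc 1 (g j)) → Gc 1 u →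
    D (Function.update g i (a • u)) = a * D (Function.update g i u)
  bd : ∃ B : ℝ, ∀ (g : α → ℝ → ℝ) (N : α → ℝ), (∀ i, Gc 1 (g i)) →
    (∀ i p, 0 ≤ p → |g i p| ≤ N i * Real.exp (-(1 * p))) → |D g| ≤ B * ∏ i, N i

section

variable {α : Type} [Fintype α] [DecidableEq α]

theorem ML.sum {X : Type} (s : Finset X) (D : X → (α → ℝ → ℝ) → ℝ)
    (h : ∀ x ∈ s, ML (D x)) : ML (fun g => ∑ x ∈ s, D x g) where
  add := by
    intro g i u v hg hu hv
    rw [← Finset.sum_add_distrib]
    exact Finset.sum_congr rfl (fun x hx => (h x hx).add g i u v hg hu hv)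
  smul := by
    intro g i a u hg hu
    rw [Finset.mul_sum]
    exact Finset.sum_congr rfl (fun x hx => (h x hx).smul g i a u hg hu)
  bd := by
    classical
    have h' : ∀ x ∈ s, ∃ B : ℝ, ∀ (g : α → ℝ → ℝ) (N : α → ℝ), (∀ i, Gc 1 (g i)) →
      (∀ i p, 0 ≤ p → |g i p| ≤ N i * Real.exp (-(1 * p))) → |D x g| ≤ B * ∏ i, N i :=
      fun x hx => (h x hx).bd
    choose! B hB using h'
    refine ⟨∑ x ∈ s, B x, ?_⟩
    intro g N hg hN
    rw [Finset.sum_mul]
    refine (Finset.abs_sum_le_sum_abs _ _).trans ?_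
    exact Finset.sum_le_sum (fun x hx => hB x hx g N hg hN)

theorem ML.const_mul (a : ℝ) (D : (α → ℝ → ℝ) → ℝ) (h : ML D) : ML (fun g => a * D g) where
  add := by
    intro g i u v hg hu hv
    rw [h.add g i u v hg hu hv, mul_add]
  smul := by
    intro g i b u hg hu
    rw [h.smul g i b u hg hu]
    ring
  bd := by
    obtain ⟨B, hB⟩ := h.bd
    refine ⟨|a| * B, ?_⟩
    intro g N hg hN
    rw [abs_mul, mul_assoc]
    exact mul_le_mul_of_nonneg_left (hB g N hg hN) (abs_nonneg a)

theorem ML.sub (D D' : (α → ℝ → ℝ) → ℝ) (h : ML D) (h' : ML D') :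
    ML (fun g => D g - D' g) where
  add := by
    intro g i u v hg hu hv
    rw [h.add g i u v hg hu hv, h'.add g i u v hg hu hv]
    ring
  smul := by
    intro g i b u hg hu
    rw [h.smul g i b u hg hu, h'.smul g i b u hg hu]
    ring
  bd := by
    obtain ⟨B, hB⟩ := h.bd
    obtain ⟨B', hB'⟩ := h'.bd
    refine ⟨B + B', ?_⟩
    intro g N hg hN
    rw [add_mul]
    exact (abs_sub _ _).trans (add_le_add (hB g N hg hN) (hB' g N hg hN))

omit [Fintype α] in
theorem update_lab {F : Type} [DecidableEq F] (lab : F ≃ α) (g : α → ℝ → ℝ) (i : α)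
    (u : ℝ → ℝ) :
    (fun f => Function.update g i u (lab f)) =
      Function.update (fun f => g (lab f)) (lab.symm i) u := by
  funext f
  by_cases hf : lab f = i
  · subst hf
    simp
  · have hf' : f ≠ lab.symm i := by
      intro h
      apply hf
      rw [h]
      simp
    rw [Function.update_of_ne hf, Function.update_of_ne hf']

theorem ML.jm {F ι : Type} [Fintype F] [DecidableEq F] [Fintype ι] (M : F → ι → ℕ)
    (hM : ∀ e, ∑ f, M f e = 2) (lab : F ≃ α) : ML (fun g => JM M (fun f => g (lab f))) where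
  add := by
    intro g i u v hg hu hv
    rw [update_lab, update_lab, update_lab]
    exact JM_add M hM 1 one_pos (fun f => g (lab f)) (fun f => hg (lab f)) (lab.symm i) u v hu hv
  smul := by
    intro g i a u hg hu
    rw [update_lab, update_lab]
    exact JM_smul M (fun f => g (lab f)) (lab.symm i) a u
  bd := by
    refine ⟨(1 / (2 * 1)) ^ (Fintype.card ι), ?_⟩
    intro g N hg hN
    have h := JM_bound M hM 1 one_pos (fun f => g (lab f)) (fun f => hg (lab f))
      (fun f => N (lab f)) (fun f p hp => hN (lab f) p hp)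
    rw [Equiv.prod_comp lab N] at h
    exact h

theorem ML.mo (k : α → ℕ) : ML (fun g : α → ℝ → ℝ => ∏ i, mom (k i) (g i)) := by
  have hup : ∀ (g : α → ℝ → ℝ) (i0 : α) (w : ℝ → ℝ),
      ∏ i, mom (k i) (Function.update g i0 w i) =
        mom (k i0) w * ∏ i ∈ univ \ {i0}, mom (k i) (g i) := by
    intro g i0 w
    have h1 : ∀ i, mom (k i) (Function.update g i0 w i) =
        Function.update (fun i => mom (k i) (g i)) i0 (mom (k i0) w) i := by
      intro i
      by_cases hi : i = i0
      · subst hi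
        simp
      · rw [Function.update_of_ne hi, Function.update_of_ne hi]
    rw [Finset.prod_congr rfl (fun i _ => h1 i), Finset.prod_update_of_mem (Finset.mem_univ i0)]
  refine ⟨?_, ?_, ?_⟩
  · intro g i u v hg hu hv
    rw [hup, hup, hup, mom_add (k i) 1 one_pos u v hu hv]
    ring
  · intro g i a u hg hu
    rw [hup, hup, mom_smul]
    ring
  · refine ⟨1, ?_⟩
    intro g N hg hN
    rw [one_mul, Finset.abs_prod]
    refine Finset.prod_le_prod (fun i _ => abs_nonneg _) (fun i _ => ?_)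
    have h := mom_bound (k i) 1 one_pos (g i) (hg i) (N i) (fun p hp => hN i p hp)
    simpa using h

theorem ML.perR (R : MvPolynomial ℕ ℝ) :
    ML (fun g : α → ℝ → ℝ => perR (fun i k => mom k (g i)) R) := by
  unfold MVP.perR perL
  refine ML.sum _ _ (fun μ _ => ML.const_mul _ _ (ML.sum _ _ (fun π _ => ?_)))
  have h : (fun g : α → ℝ → ℝ => ∏ j, mom (μ.toMultiset.toList.get j) (g (π j))) =
      (fun g : α → ℝ → ℝ => ∏ i, mom (μ.toMultiset.toList.get (π.symm i)) (g i)) := by
    funext g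
    rw [← Equiv.prod_comp π]
    simp
  rw [h]
  exact ML.mo _

end

theorem bij_exp {H : Type} [Fintype H] (σ : Equiv.Perm H) (R : MvPolynomial ℕ ℝ)
    (hR : DProp σ R) {α : Type} [Fintype α] [DecidableEq α] (s : α → ℝ) (hs : ∀ i, 0 < s i) :
    ∑ τ : Prg H, ∑ lab : Cyc (σ * τ.1) ≃ α,
      JM (MT σ τ.1) (fun f p => Real.exp (-(s (lab f) * p))) =
      perR (fun i k => (1 / s i) ^ (2 * k + 1)) R := by
  have h := congrArg (MvPolynomial.coeff (∑ i : α, Finsupp.single i 1)) (poly_id σ R hR s hs)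
  rw [coeff_right (fun i k => (1 / s i) ^ (2 * k + 1)) R, MvPolynomial.coeff_sum] at h
  rw [← h]
  refine Finset.sum_congr rfl (fun τ _ => ?_)
  exact (coeff_left (fun lab : Cyc (σ * τ.1) → α =>
    JM (MT σ τ.1) (fun f p => Real.exp (-(s (lab f) * p))))).symm

theorem bij_all {H : Type} [Fintype H] (σ : Equiv.Perm H) (R : MvPolynomial ℕ ℝ)
    (hR : DProp σ R) {α : Type} [Fintype α] [DecidableEq α] (g : α → ℝ → ℝ)
    (hg : ∀ i, Continuous (g i)) (r : ℝ) (hr : ∀ i p, r ≤ p → g i p = 0) :
    ∑ τ : Prg H, ∑ lab : Cyc (σ * τ.1) ≃ α, JM (MT σ τ.1) (fun f => g (lab f)) =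
      perR (fun i k => mom k (g i)) R := by
  have hML : ML (fun g : α → ℝ → ℝ =>
      (∑ τ : Prg H, ∑ lab : Cyc (σ * τ.1) ≃ α, JM (MT σ τ.1) (fun f => g (lab f))) -
      perR (fun i k => mom k (g i)) R) := by
    refine ML.sub _ _ (ML.sum _ _ (fun τ _ => ML.sum _ _ (fun lab _ => ?_))) (ML.perR R)
    exact ML.jm (MT σ τ.1) (MT_col σ τ.1 τ.2) lab
  obtain ⟨B, hB⟩ := hML.bd
  have h := multi_zero 1 _ hML.add hML.smul B hB ?_ g hg r hr
  · exact sub_eq_zero.mp h
  · intro s hs
    have hs' : ∀ i, 0 < s i := fun i => lt_of_lt_of_le one_pos (hs i)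
    rw [sub_eq_zero, bij_exp σ R hR s hs']
    have h1 : (fun (i : α) (k : ℕ) => (1 / s i) ^ (2 * k + 1)) =
        (fun (i : α) (k : ℕ) => mom k (fun p => Real.exp (-(s i * p)))) := by
      funext i k
      rw [mom_exp k (s i) (hs' i)]
    rw [h1]

end Pool.Agent.Helper12.MVP
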