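import Pool.Agent.Helper12.MVP.Defs
import Pool.Agent.Helper60.MV.B.Phi

/-!
MV-P12. Moments of `phi`: `∫_0^∞ phi a · a^M da = (M+1)! ζ(M+2)`.

Proof. For `a > 0`: `phi a = a/(e^a - 1) = ∑_{n ≥ 0} a e^{-(n+1) a}`. Nonnegative terms, so integrate termwise
(`hasSum_integral_of_summable_integral_norm` or lintegral version): `∫_0^∞ a^{M+1} e^{-(n+1)a} da = (M+1)!/(n+1)^{M+2}`
(`integral_rpow_mul_exp_neg_mul_Ioi` and `Real.Gamma_nat_eq_factorial`), summable. Integrability from the same lemma (or from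
`phi a ≤ e^{-a/2}`).
-/

namespace Pool.Agent.Helper12.MVP

open Finset MeasureTheory Filter Topology Pool.Agent.Helper60.MV

private theorem term_int (M : ℕ) (b : ℝ) (hb : 0 < b) :
    IntegrableOn (fun a : ℝ => a ^ M * Real.exp (-(b * a))) (Set.Ioi 0) := by
  have h := integrableOn_rpow_mul_exp_neg_mul_rpow (p := 1) (s := (M : ℝ)) (b := b)
    (lt_of_lt_of_le (by norm_num) (Nat.cast_nonneg M)) one_pos hb
  refine h.congr_fun (fun x hx => ?_) measurableSet_Ioi
  simp only [Real.rpow_natCast, Real.rpow_one, neg_mul]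

private theorem term_val (M : ℕ) (b : ℝ) (hb : 0 < b) :
    ∫ a in Set.Ioi (0:ℝ), a ^ (M + 1) * Real.exp (-(b * a))
      = ((M + 1).factorial : ℝ) * (1 / b ^ (M + 2)) := by
  have h := Real.integral_rpow_mul_exp_neg_mul_Ioi (a := ((M + 1 : ℕ) : ℝ) + 1) (r := b)
    (by positivity) hb
  rw [Real.Gamma_nat_eq_factorial] at h
  rw [mul_comm]
  have h2 : (1 / b) ^ (((M + 1 : ℕ) : ℝ) + 1) = 1 / b ^ (M + 2) := by
    rw [show ((M + 1 : ℕ) : ℝ) + 1 = ((M + 2 : ℕ) : ℝ) by push_cast; ring, Real.rpow_natCast,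
      one_div, inv_pow, one_div]
  rw [h2] at h
  rw [← h]
  refine setIntegral_congr_fun measurableSet_Ioi (fun x hx => ?_)
  simp only [add_sub_cancel_right, Real.rpow_natCast]

private theorem phi_sum (M : ℕ) (a : ℝ) (ha : 0 < a) :
    HasSum (fun n : ℕ => a ^ (M + 1) * Real.exp (-(((n:ℝ) + 1) * a))) (phi a * a ^ M) := by
  have h1 : Real.exp (-a) < 1 := by
    rw [Real.exp_lt_one_iff]
    linarith
  have h2 := hasSum_geometric_of_lt_one (Real.exp_pos (-a)).le h1
  have h3 := h2.mul_left (a ^ (M + 1) * Real.exp (-a))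
  have h4 : a ^ (M + 1) * Real.exp (-a) * (1 - Real.exp (-a))⁻¹ = phi a * a ^ M := by
    unfold phi
    rw [if_neg ha.ne']
    have h5 : 0 < 1 - Real.exp (-a) := by linarith
    have h6 : Real.exp a - 1 = Real.exp a * (1 - Real.exp (-a)) := by
      rw [mul_sub, ← Real.exp_add, add_neg_cancel, Real.exp_zero, mul_one]
    rw [h6, Real.exp_neg]
    have h7 := Real.exp_pos a
    rw [Real.exp_neg] at h5
    field_simp
    rw [pow_succ]
    ring
  rw [h4] at h3
  have h8 : (fun n : ℕ => a ^ (M + 1) * Real.exp (-(((n:ℝ) + 1) * a)))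
      = fun i : ℕ => a ^ (M + 1) * Real.exp (-a) * Real.exp (-a) ^ i := by
    funext n
    rw [mul_assoc, ← pow_succ', ← Real.exp_nat_mul]
    congr 2
    push_cast
    ring
  rw [h8]
  exact h3

theorem phi_moment_integrable (M : ℕ) :
    IntegrableOn (fun a : ℝ => phi a * a ^ M) (Set.Ioi 0) := by
  have h := term_int M (1 / 2) (by norm_num)
  refine h.mono' (phi_continuous.mul (continuous_pow M)).aestronglyMeasurable ?_
  refine (ae_restrict_mem measurableSet_Ioi).mono (fun x hx => ?_)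
  have hx0 : (0:ℝ) < x := hx
  rw [Real.norm_eq_abs, abs_of_nonneg (mul_nonneg (phi_pos x).le (pow_nonneg hx0.le M)), mul_comm]
  refine mul_le_mul_of_nonneg_left ?_ (pow_nonneg hx0.le M)
  have := phi_le_exp x
  rwa [show -(x / 2) = -(1 / 2 * x) by ring] at this

theorem phi_moment (M : ℕ) :
    ∫ a in Set.Ioi (0:ℝ), phi a * a ^ M = ((M + 1).factorial : ℝ) * zet (M + 2) := by
  have h1 : ∀ n : ℕ, Integrable (fun a : ℝ => a ^ (M + 1) * Real.exp (-(((n:ℝ) + 1) * a)))
      (volume.restrict (Set.Ioi 0)) := fun n => term_int (M + 1) ((n:ℝ) + 1) (by positivity)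
  have h2 : ∀ n : ℕ, ∫ a in Set.Ioi (0:ℝ), ‖a ^ (M + 1) * Real.exp (-(((n:ℝ) + 1) * a))‖
      = ((M + 1).factorial : ℝ) * (1 / ((n:ℝ) + 1) ^ (M + 2)) := by
    intro n
    rw [← term_val M ((n:ℝ) + 1) (by positivity)]
    refine setIntegral_congr_fun measurableSet_Ioi (fun x hx => ?_)
    have hx0 : (0:ℝ) < x := hx
    exact Real.norm_of_nonneg (by positivity)
  have h3 : Summable (fun n : ℕ => 1 / ((n:ℝ) + 1) ^ (M + 2)) := by
    have := (summable_nat_add_iff 1).mpr (Real.summable_one_div_nat_pow.mpr (show 1 < M + 2 by omega))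
    simpa using this
  have h4 := hasSum_integral_of_summable_integral_norm h1 (by
    simp_rw [h2]
    exact h3.mul_left _)
  have h5 := h4.tsum_eq
  rw [show (∫ a in Set.Ioi (0:ℝ), phi a * a ^ M)
      = ∫ a in Set.Ioi (0:ℝ), ∑' n : ℕ, a ^ (M + 1) * Real.exp (-(((n:ℝ) + 1) * a)) from ?_, ← h5]
  · unfold zet
    rw [← tsum_mul_left]
    refine tsum_congr (fun n => ?_)
    exact term_val M ((n:ℝ) + 1) (by positivity)
  · refine setIntegral_congr_fun measurableSet_Ioi (fun x hx => ?_)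
    exact (phi_sum M x hx).tsum_eq.symm

end Pool.Agent.Helper12.MVP
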