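import Pool.Agent.Helper12.MVP.GaussR
import Pool.Agent.Helper12.MVP.PhiMom

/-!
MV-P13. The regularised covariance tends to the covariance.

Proof. Pointwise: for `a > 0`, `mom k (tentE ε (· - a)) → a^{2k}/(2k)!` as `ε → 0+` (for `ε < a` the support is inside `p > 0` and
`|p^{2k} - a^{2k}| ≤ sup_{|p-a| ≤ ε}`, total mass 1); for `a < 0` it is `0` for `ε ≤ -a` (`mom_tent_zero`). Dominated convergence for
`ε ≤ 1`: `|phi a · mom k · mom l| ≤ 1_{a ≥ -1} e^{-a/2} (|a|+1)^{2k+2l}` (`phi_le_exp`, `mom_tent_bound`, `mom_tent_zero`). The limit is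
`∫_{a>0} phi a · a^{2k}/(2k)! · a^{2l}/(2l)! da = Cov k l` by `phi_moment (2k+2l)`.
-/

namespace Pool.Agent.Helper12.MVP

open Finset MeasureTheory Filter Topology Pool.Agent.Helper60.MV

theorem tent_mul_integrable (ε : ℝ) (hε : 0 < ε) (a : ℝ) (q : ℝ → ℝ) (hq : Continuous q) :
    Integrable (fun p => tentE ε (p - a) * q p) := by
  have hc : Continuous (fun p => tentE ε (p - a) * q p) :=
    ((tentE_continuous ε).comp (continuous_id.sub continuous_const)).mul hq
  refine hc.integrable_of_hasCompactSupport ?_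
  refine HasCompactSupport.intro (K := Set.Icc (a - ε) (a + ε)) isCompact_Icc ?_
  intro p hp
  have h : ε ≤ |p - a| := by
    by_contra hlt
    push Not at hlt
    rw [abs_lt] at hlt
    exact hp ⟨by linarith [hlt.1], by linarith [hlt.2]⟩
  rw [tentE_zero ε hε _ h, zero_mul]

theorem tent_mass (ε : ℝ) (hε : 0 < ε) (a : ℝ) (ha : ε ≤ a) :
    ∫ p in Set.Ioi (0:ℝ), tentE ε (p - a) = 1 := by
  rw [setIntegral_eq_integral_of_forall_compl_eq_zero]
  · rw [integral_sub_right_eq_self (fun p => tentE ε p) a]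
    exact tentE_integral ε hε
  · intro p hp
    have hp' : p ≤ 0 := not_lt.mp hp
    apply tentE_zero ε hε
    rw [abs_of_nonpos (by linarith)]
    linarith

theorem mom_tent_tendsto (k : ℕ) (a : ℝ) (ha : 0 < a) :
    Tendsto (fun ε => mom k (fun p => tentE ε (p - a))) (𝓝[>] (0:ℝ))
      (𝓝 (a ^ (2 * k) / ((2 * k).factorial : ℝ))) := by
  have hq : Continuous (fun p : ℝ => p ^ (2 * k) / ((2 * k).factorial : ℝ)) := by
    fun_prop
  rw [Metric.tendsto_nhds]
  intro η hη
  have hη2 : 0 < η / 2 := by linarith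
  obtain ⟨δ, hδ, hδ'⟩ := Metric.continuous_iff.mp hq a (η / 2) hη2
  have hmem : Set.Ioo (0:ℝ) (min δ a) ∈ 𝓝[>] (0:ℝ) :=
    Ioo_mem_nhdsGT (lt_min hδ ha)
  filter_upwards [hmem] with ε hε
  have hε0 : 0 < ε := hε.1
  have hεδ : ε < δ := lt_of_lt_of_le hε.2 (min_le_left _ _)
  have hεa : ε < a := lt_of_lt_of_le hε.2 (min_le_right _ _)
  have hint0 := tent_mul_integrable ε hε0 a (fun _ => (1:ℝ)) continuous_const
  simp only [mul_one] at hint0
  have h1 : mom k (fun p => tentE ε (p - a)) - a ^ (2 * k) / ((2 * k).factorial : ℝ) =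
      ∫ p in Set.Ioi (0:ℝ), tentE ε (p - a) *
        (p ^ (2 * k) / ((2 * k).factorial : ℝ) - a ^ (2 * k) / ((2 * k).factorial : ℝ)) := by
    have h2 : a ^ (2 * k) / ((2 * k).factorial : ℝ) = ∫ p in Set.Ioi (0:ℝ),
        tentE ε (p - a) * (a ^ (2 * k) / ((2 * k).factorial : ℝ)) := by
      rw [integral_mul_const, tent_mass ε hε0 a hεa.le, one_mul]
    unfold mom
    conv_lhs => rw [h2]
    rw [← integral_sub]
    · apply integral_congr_ae
      refine Filter.Eventually.of_forall (fun p => ?_)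
      simp only
      ring
    · exact (tent_mul_integrable ε hε0 a _ hq).integrableOn
    · exact (tent_mul_integrable ε hε0 a _ continuous_const).integrableOn
  rw [Real.dist_eq, h1]
  have h3 : |∫ p in Set.Ioi (0:ℝ), tentE ε (p - a) *
        (p ^ (2 * k) / ((2 * k).factorial : ℝ) - a ^ (2 * k) / ((2 * k).factorial : ℝ))| ≤
      ∫ p in Set.Ioi (0:ℝ), tentE ε (p - a) * (η / 2) := by
    rw [← Real.norm_eq_abs]
    refine norm_integral_le_of_norm_le
      (tent_mul_integrable ε hε0 a _ continuous_const).integrableOn ?_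
    refine Filter.Eventually.of_forall (fun p => ?_)
    rw [Real.norm_eq_abs, abs_mul, abs_of_nonneg (tentE_nonneg ε hε0 _)]
    by_cases hp : ε ≤ |p - a|
    · rw [tentE_zero ε hε0 _ hp, zero_mul, zero_mul]
    · push Not at hp
      refine mul_le_mul_of_nonneg_left ?_ (tentE_nonneg ε hε0 _)
      have h4 := hδ' p (by rw [Real.dist_eq]; linarith)
      rw [Real.dist_eq] at h4
      exact h4.le
  rw [integral_mul_const, tent_mass ε hε0 a hεa.le, one_mul] at h3
  linarith

theorem Ce_symm (ε : ℝ) (k l : ℕ) : Ce ε k l = Ce ε l k := by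
  unfold Ce
  congr 1
  funext a
  ring

/-- the dominating function -/
noncomputable def bdF (n : ℕ) (a : ℝ) : ℝ :=
  (Set.Ioi (-2 : ℝ)).indicator
    (fun a => (8 ^ n * (n.factorial : ℝ) * Real.exp 1) * Real.exp (-(1 / 4) * a)) a

theorem bdF_integrable (n : ℕ) : Integrable (bdF n) := by
  unfold bdF
  rw [integrable_indicator_iff measurableSet_Ioi]
  exact (integrableOn_exp_mul_Ioi (by norm_num) (-2)).const_mul _

theorem pow_bd (n : ℕ) (a : ℝ) (ha : -2 < a) :
    Real.exp (-(a / 2)) * (|a| + 1) ^ n ≤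
      (8 ^ n * (n.factorial : ℝ) * Real.exp 1) * Real.exp (-(1 / 4) * a) := by
  have h0 : 0 ≤ |a| := abs_nonneg a
  have h1 := Real.pow_div_factorial_le_exp (x := (|a| + 1) / 8) (by positivity) n
  have hf : (0:ℝ) < (n.factorial : ℝ) := by positivity
  rw [div_le_iff₀ hf, div_pow, div_le_iff₀ (by positivity)] at h1
  have h2 : |a| ≤ a + 4 := by
    rw [abs_le]
    constructor <;> linarith
  have h3 : Real.exp ((|a| + 1) / 8) ≤ Real.exp 1 * Real.exp (a / 4) := by
    rw [← Real.exp_add]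
    apply Real.exp_le_exp.mpr
    linarith
  calc Real.exp (-(a / 2)) * (|a| + 1) ^ n
      ≤ Real.exp (-(a / 2)) * (Real.exp ((|a| + 1) / 8) * (n.factorial : ℝ) * 8 ^ n) := by
        exact mul_le_mul_of_nonneg_left h1 (Real.exp_pos _).le
    _ ≤ Real.exp (-(a / 2)) * ((Real.exp 1 * Real.exp (a / 4)) * (n.factorial : ℝ) * 8 ^ n) := by
        gcongr
    _ = (8 ^ n * (n.factorial : ℝ) * Real.exp 1) * (Real.exp (-(a / 2)) * Real.exp (a / 4)) := by
        ring
    _ = (8 ^ n * (n.factorial : ℝ) * Real.exp 1) * Real.exp (-(1 / 4) * a) := by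
        rw [← Real.exp_add]
        congr 2
        ring

theorem Ce_tendsto (k l : ℕ) :
    Tendsto (fun ε => Ce ε k l) (𝓝[>] (0:ℝ)) (𝓝 (Cov k l)) := by
  have hlim : Cov k l = ∫ a : ℝ, (Set.Ioi (0:ℝ)).indicator (fun a => phi a *
      (a ^ (2 * k) / ((2 * k).factorial : ℝ) * (a ^ (2 * l) / ((2 * l).factorial : ℝ)))) a := by
    rw [integral_indicator measurableSet_Ioi]
    have h1 : ∀ a : ℝ, phi a *
        (a ^ (2 * k) / ((2 * k).factorial : ℝ) * (a ^ (2 * l) / ((2 * l).factorial : ℝ))) =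
        (phi a * a ^ (2 * k + 2 * l)) *
          (1 / (((2 * k).factorial : ℝ) * ((2 * l).factorial : ℝ))) := by
      intro a
      rw [pow_add]
      field_simp
    simp only [h1]
    rw [integral_mul_const, phi_moment]
    unfold Cov
    rw [mul_one_div]
  rw [hlim]
  unfold Ce
  refine tendsto_integral_filter_of_dominated_convergence (bdF (2 * k + 2 * l)) ?_ ?_
    (bdF_integrable _) ?_
  · filter_upwards [self_mem_nhdsWithin] with ε hε
    exact (phi_continuous.measurable.mul ((mom_tent_meas k ε hε).mul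
      (mom_tent_meas l ε hε))).aestronglyMeasurable
  · have hmem : Set.Ioo (0:ℝ) 1 ∈ 𝓝[>] (0:ℝ) := Ioo_mem_nhdsGT one_pos
    filter_upwards [hmem] with ε hε
    refine Filter.Eventually.of_forall (fun a => ?_)
    have hε0 : 0 < ε := hε.1
    rw [Real.norm_eq_abs, abs_of_nonneg (mul_nonneg (phi_pos a).le
      (mul_nonneg (mom_tent_nonneg k ε hε0 a) (mom_tent_nonneg l ε hε0 a)))]
    unfold bdF
    by_cases ha : -2 < a
    · rw [Set.indicator_of_mem (Set.mem_Ioi.mpr ha)]
      refine le_trans ?_ (pow_bd _ a ha)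
      have h0 : 0 ≤ |a| := abs_nonneg a
      have hk : mom k (fun p => tentE ε (p - a)) ≤ (|a| + 1) ^ (2 * k) :=
        (mom_tent_bound k ε hε0 a).trans (pow_le_pow_left₀ (by linarith) (by linarith [hε.2]) _)
      have hl : mom l (fun p => tentE ε (p - a)) ≤ (|a| + 1) ^ (2 * l) :=
        (mom_tent_bound l ε hε0 a).trans (pow_le_pow_left₀ (by linarith) (by linarith [hε.2]) _)
      rw [pow_add]
      exact mul_le_mul (phi_le_exp a) (mul_le_mul hk hl (mom_tent_nonneg l ε hε0 a)
        (by positivity)) (mul_nonneg (mom_tent_nonneg k ε hε0 a) (mom_tent_nonneg l ε hε0 a))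
        (Real.exp_pos _).le
    · rw [Set.indicator_of_notMem (by simpa using ha)]
      rw [mom_tent_zero k ε hε0 a (by linarith [hε.2, not_lt.mp ha])]
      simp
  · have hne : ∀ᵐ a : ℝ, a ≠ 0 := by
      rw [ae_iff]
      simp
    filter_upwards [hne] with a ha
    rcases lt_or_gt_of_ne ha with hneg | hpos
    · rw [Set.indicator_of_notMem (by simpa using hneg.le)]
      have hmem : Set.Ioo (0:ℝ) (-a) ∈ 𝓝[>] (0:ℝ) := Ioo_mem_nhdsGT (by linarith)
      refine tendsto_const_nhds.congr' ?_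
      filter_upwards [hmem] with ε hε
      rw [mom_tent_zero k ε hε.1 a (by linarith [hε.2])]
      simp
    · rw [Set.indicator_of_mem (Set.mem_Ioi.mpr hpos)]
      exact ((mom_tent_tendsto k a hpos).mul (mom_tent_tendsto l a hpos)).const_mul _

end Pool.Agent.Helper12.MVP
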