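import Pool.Agent.Helper60.MV.Defs

/-!
Project MV, BLOCK P (Gaussian pairing), definitions.

Overview (section 4 of `/team-store/helper60_MV_Proof.md`). `(H, σ)` finite set with a permutation, `R` a polynomial in
`t_0, t_1, ...` such that (block D) for all even `N` and `s_i > 0`
`PKs σ N s = R (t_k = ∑ s_i^{-2k-1})`. Then `ZZ σ ε → Wick R` as `ε → 0+`.

1. `JM (MT σ τ) g = ∫_{x > 0} ∏_f g_f (p_f(x)) dx` for a pairing `τ`; for exponentials `g_f = e^{-s_f p}` it is
   `∏_e 1 / (s_{face h} + s_{face τ h})` (`Exp.lean`, `Lab.lean`).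
2. Both sides of `∑_τ ∑_{lab : Face → α} ∏_f m_{lab f} JM(e^{-s_{lab f} p}) = R(t_k = ∑ m_i s_i^{-2k-1})` are polynomials in `m`;
   they agree for even natural `m` (repeat `s_i` `m_i` times), so they are equal (`PolyId.lean`).
3. Coefficient of `∏ m_i`: sum over bijections `lab : Face ≃ α` on the left, `perR` on the right (`Coef.lean`, `BijExp.lean`).
4. Multilinearity and density of exponentials: the same for all continuous `g_i` vanishing for large `p`
   (`Bound.lean`, `Mom.lean`, `Dens.lean`, `Multi.lean`, `BijAll.lean`).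
5. `α = Fin m × Bool`, `g_{(c,b)} = tentE ε (· - a_c)`, multiply by `∏ phi (a_c)` and integrate over `a ∈ ℝ^m`
   (`GaussL.lean`, `GaussR.lean`), divide by `2^m m!` (`Sym.lean`, `Haf.lean`), sum over `m`, let `ε → 0` (`CeLim.lean`, `Main.lean`).
-/

namespace Pool.Agent.Helper12.MVP

open Finset MeasureTheory Filter Topology Pool.Agent.Helper60.MV

/-- pairings of `H` -/
abbrev Prg (H : Type) : Type := {τ : Equiv.Perm H // IsPairing τ}

noncomputable instance {H : Type} [Fintype H] : Fintype (Prg H) := by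
  classical
  exact Subtype.fintype _

/-- linear form of the row `f` of `M` -/
noncomputable def row {φ ι : Type} [Fintype ι] (M : φ → ι → ℕ) (f : φ) (x : ι → ℝ) : ℝ :=
  ∑ e, (M f e : ℝ) * x e

/-- the functional `∫_{x > 0} ∏_f g_f (p_f x) dx` -/
noncomputable def JM {φ ι : Type} [Fintype φ] [Fintype ι] (M : φ → ι → ℕ) (g : φ → ℝ → ℝ) : ℝ :=
  ∫ x in {x : ι → ℝ | ∀ e, 0 < x e}, ∏ f, g f (row M f x)

/-- incidence matrix (faces, edges) of a permutation `τ` -/
noncomputable def MT {H : Type} [Fintype H] (σ τ : Equiv.Perm H) : Cyc (σ * τ) → Cyc τ → ℕ :=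
  fun f e => by
    classical
    exact (univ.filter (fun h : H => cyc (σ * τ) h = f ∧ cyc τ h = e)).card

/-- continuous functions with `g = O(e^{-c p})` on `p ≥ 0` -/
structure Gc (c : ℝ) (g : ℝ → ℝ) : Prop where
  cont : Continuous g
  bd : ∃ B : ℝ, ∀ p : ℝ, 0 ≤ p → |g p| ≤ B * Real.exp (-(c * p))

/-- the moments `∫_0^∞ g(p) p^{2k} / (2k)! dp` -/
noncomputable def mom (k : ℕ) (g : ℝ → ℝ) : ℝ :=
  ∫ p in Set.Ioi (0:ℝ), g p * (p ^ (2 * k) / ((2 * k).factorial : ℝ))

/-- the sum of `PK` for a general `(H, σ)` -/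
noncomputable def PKs {H : Type} [Fintype H] (σ : Equiv.Perm H) (N : ℕ) (s : Fin N → ℝ) : ℝ := by
  classical
  exact ∑ τ ∈ univ.filter (fun τ : Equiv.Perm H => IsPairing τ),
    ∑ lab ∈ univ.filter (fun lab : H → Fin N => ∀ h, lab ((σ * τ) h) = lab h),
      ∏ e : Cyc τ, 1 / (s (lab e.rep) + s (lab (τ e.rep)))

/-- permanent-like sum over all bijections between the positions of the list `L` and `α` (zero if the cardinalities are
different) -/
noncomputable def perL {α : Type} [Fintype α] [DecidableEq α] (t : α → ℕ → ℝ) (L : List ℕ) : ℝ :=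
  ∑ π : Fin L.length ≃ α, ∏ j, t (π j) (L.get j)

/-- the same, extended linearly to polynomials -/
noncomputable def perR {α : Type} [Fintype α] [DecidableEq α] (t : α → ℕ → ℝ) (R : MvPolynomial ℕ ℝ) : ℝ :=
  ∑ m ∈ R.support, R.coeff m * perL t m.toMultiset.toList

/-- the regularised covariance -/
noncomputable def Ce (ε : ℝ) (k l : ℕ) : ℝ :=
  ∫ a : ℝ, phi a * (mom k (fun p => tentE ε (p - a)) * mom l (fun p => tentE ε (p - a)))

/-- the pairing of `F` given by a bijection with `Fin m × Bool` -/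
def prOf {F : Type} {m : ℕ} (e : F ≃ Fin m × Bool) : Equiv.Perm F where
  toFun f := e.symm ((e f).1, !(e f).2)
  invFun f := e.symm ((e f).1, !(e f).2)
  left_inv f := by simp
  right_inv f := by simp

/-- the property of `R` proved in block D -/
def DProp {H : Type} [Fintype H] (σ : Equiv.Perm H) (R : MvPolynomial ℕ ℝ) : Prop :=
  ∀ N : ℕ, Even N → ∀ s : Fin N → ℝ, (∀ i, 0 < s i) →
    PKs σ N s = MvPolynomial.eval (fun k => ∑ i, (1 / s i) ^ (2 * k + 1)) R

end Pool.Agent.Helper12.MVP
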