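import Pool.Agent.Helper12.MVP.Defs

/-!
MV-P4. Density of exponentials.

Proofs. The closure properties of `Gc c` are immediate (`Gc_of_vanish`: a continuous `g` with `g p = 0` for `p ≥ R` is bounded on
`[0, max R 0]` by compactness, and `e^{-c p}` is bounded below there by a positive constant; any real `c`).
`dens`: let `G : [0,1] → ℝ`, `G u = e^{c p} g p` with `p = -log u` for `u > 0` and `G 0 = 0`. It is continuous on `[0,1]` (it vanishes for
`u ≤ e^{-R}`). Given `δ > 0` there is a polynomial `q` with `|G u - q u| ≤ δ` on `[0,1]` (Weierstrass: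
`exists_polynomial_near_of_continuousOn`). Let `h p = e^{-c p} q(e^{-p}) = ∑_j q_j e^{-(c+j) p}`. By additivity, homogeneity and `hexp`,
`D h = 0` (induction over the finite sum; all partial sums are in `Gc c`; the empty sum: `D 0 = D (0 • u) = 0`). For `p ≥ 0`:
`|g p - h p| = e^{-c p} |G(e^{-p}) - q(e^{-p})| ≤ δ e^{-c p}`. So `|D g| = |D (g - h) + D h| ≤ B δ` for every `δ > 0`
(`g = (g - h) + h`).
-/

namespace Pool.Agent.Helper12.MVP

open Finset MeasureTheory Filter Topology Pool.Agent.Helper60.MV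

theorem Gc_exp (c s : ℝ) (h : c ≤ s) : Gc c (fun p => Real.exp (-(s * p))) := by
  refine ⟨by fun_prop, 1, ?_⟩
  intro p hp
  rw [abs_of_pos (Real.exp_pos _), one_mul]
  apply Real.exp_le_exp.mpr
  have := mul_le_mul_of_nonneg_right h hp
  linarith

theorem Gc_add (c : ℝ) (u v : ℝ → ℝ) (hu : Gc c u) (hv : Gc c v) : Gc c (u + v) := by
  obtain ⟨B, hB⟩ := hu.bd
  obtain ⟨B', hB'⟩ := hv.bd
  refine ⟨hu.cont.add hv.cont, B + B', ?_⟩
  intro p hp
  have h1 := hB p hp
  have h2 := hB' p hp
  have h3 := abs_add_le (u p) (v p)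
  simp only [Pi.add_apply]
  nlinarith

theorem Gc_smul (c a : ℝ) (u : ℝ → ℝ) (hu : Gc c u) : Gc c (a • u) := by
  obtain ⟨B, hB⟩ := hu.bd
  refine ⟨hu.cont.const_smul a, |a| * B, ?_⟩
  intro p hp
  have h1 := hB p hp
  simp only [Pi.smul_apply, smul_eq_mul, abs_mul]
  rw [mul_assoc]
  exact mul_le_mul_of_nonneg_left h1 (abs_nonneg a)

theorem Gc_of_vanish (c : ℝ) (g : ℝ → ℝ) (hg : Continuous g) (R : ℝ)
    (hR : ∀ p, R ≤ p → g p = 0) : Gc c g := by
  refine ⟨hg, ?_⟩
  have hcont : ContinuousOn (fun p => |g p| * Real.exp (c * p)) (Set.Icc 0 (max R 0)) := by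
    apply Continuous.continuousOn
    fun_prop
  obtain ⟨C, hC⟩ := isCompact_Icc.exists_bound_of_continuousOn hcont
  refine ⟨C, ?_⟩
  intro p hp
  by_cases h : p ≤ max R 0
  · have h1 := hC p ⟨hp, h⟩
    rw [Real.norm_of_nonneg (by positivity)] at h1
    rw [Real.exp_neg, ← div_eq_mul_inv, le_div_iff₀ (Real.exp_pos _)]
    exact h1
  · push Not at h
    have h2 : R ≤ p := le_trans (le_max_left _ _) h.le
    rw [hR p h2, abs_zero]
    have h3 := hC 0 ⟨le_rfl, le_max_right _ _⟩
    have h4 : 0 ≤ C := le_trans (norm_nonneg _) h3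
    positivity

theorem dens (c : ℝ) (D : (ℝ → ℝ) → ℝ)
    (hadd : ∀ u v, Gc c u → Gc c v → D (u + v) = D u + D v)
    (hsmul : ∀ (a : ℝ) u, Gc c u → D (a • u) = a * D u)
    (B : ℝ) (hB : ∀ u N, Gc c u → (∀ p, 0 ≤ p → |u p| ≤ N * Real.exp (-(c * p))) →
      |D u| ≤ B * N)
    (hexp : ∀ s, c ≤ s → D (fun p => Real.exp (-(s * p))) = 0)
    (g : ℝ → ℝ) (hg : Continuous g) (R : ℝ) (hR : ∀ p, R ≤ p → g p = 0) : D g = 0 := by
  have hgG : Gc c g := Gc_of_vanish c g hg R hR
  have hD0 : D 0 = 0 := by
    have := hsmul 0 g hgG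
    rwa [zero_smul, zero_mul] at this
  have hG0 : Gc c 0 := by
    have := Gc_smul c 0 g hgG
    rwa [zero_smul] at this
  -- the transported function
  let G : ℝ → ℝ := fun u => if u ≤ 0 then 0 else Real.exp (c * (-Real.log u)) * g (-Real.log u)
  have hGc : ContinuousOn G (Set.Icc 0 1) := by
    intro u hu
    apply ContinuousAt.continuousWithinAt
    by_cases h : u < Real.exp (-R)
    · have hev : G =ᶠ[𝓝 u] fun _ => 0 := by
        filter_upwards [Iio_mem_nhds h] with v hv
        show (if v ≤ 0 then 0 else Real.exp (c * (-Real.log v)) * g (-Real.log v)) = 0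
        split_ifs with h1
        · rfl
        · push Not at h1
          have h2 : Real.log v < -R := by
            rw [Real.log_lt_iff_lt_exp h1]
            exact hv
          rw [hR _ (by linarith), mul_zero]
      exact ContinuousAt.congr continuousAt_const hev.symm
    · push Not at h
      have hu0 : 0 < u := lt_of_lt_of_le (Real.exp_pos _) h
      have hev : G =ᶠ[𝓝 u] fun v => Real.exp (c * (-Real.log v)) * g (-Real.log v) := by
        filter_upwards [Ioi_mem_nhds hu0] with v hv
        show (if v ≤ 0 then 0 else Real.exp (c * (-Real.log v)) * g (-Real.log v)) = _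
        rw [if_neg (not_le.mpr hv)]
      refine ContinuousAt.congr ?_ hev.symm
      have hlog : ContinuousAt (fun v : ℝ => -Real.log v) u :=
        (Real.continuousAt_log hu0.ne').neg
      have h1 : ContinuousAt (fun v : ℝ => Real.exp (c * (-Real.log v))) u :=
        Real.continuous_exp.continuousAt.comp (continuousAt_const.mul hlog)
      have h2 : ContinuousAt (fun v : ℝ => g (-Real.log v)) u :=
        ContinuousAt.comp (f := fun v : ℝ => -Real.log v) hg.continuousAt hlog
      exact h1.mul h2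
  -- main estimate
  have key : ∀ δ : ℝ, 0 < δ → |D g| ≤ B * δ := by
    intro δ hδ
    obtain ⟨q, hq⟩ := exists_polynomial_near_of_continuousOn 0 1 G hGc δ hδ
    -- finite sums
    have hsum : ∀ s : Finset ℕ,
        Gc c (∑ j ∈ s, q.coeff j • (fun p : ℝ => Real.exp (-((c + j) * p)))) ∧
        D (∑ j ∈ s, q.coeff j • (fun p : ℝ => Real.exp (-((c + j) * p)))) = 0 := by
      intro s
      induction s using Finset.induction_on with
      | empty => simp only [Finset.sum_empty]; exact ⟨hG0, hD0⟩
      | insert a s ha ih =>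
        rw [Finset.sum_insert ha]
        have hca : c ≤ c + (a : ℝ) := by
          have : (0 : ℝ) ≤ (a : ℝ) := Nat.cast_nonneg a
          linarith
        have h1 : Gc c (q.coeff a • (fun p : ℝ => Real.exp (-((c + a) * p)))) :=
          Gc_smul c _ _ (Gc_exp c _ hca)
        refine ⟨Gc_add c _ _ h1 ih.1, ?_⟩
        rw [hadd _ _ h1 ih.1, hsmul _ _ (Gc_exp c _ hca), hexp _ hca, ih.2]
        ring
    obtain ⟨hh1, hh2⟩ := hsum (Finset.range (q.natDegree + 1))
    set h : ℝ → ℝ := ∑ j ∈ Finset.range (q.natDegree + 1),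
      q.coeff j • (fun p : ℝ => Real.exp (-((c + j) * p))) with hh
    have hval : ∀ p, h p = Real.exp (-(c * p)) * q.eval (Real.exp (-p)) := by
      intro p
      rw [hh, Finset.sum_apply, Polynomial.eval_eq_sum_range, Finset.mul_sum]
      apply Finset.sum_congr rfl
      intro j _
      simp only [Pi.smul_apply, smul_eq_mul]
      rw [← Real.exp_nat_mul]
      have : Real.exp (-((c + j) * p)) = Real.exp (-(c * p)) * Real.exp ((j : ℝ) * -p) := by
        rw [← Real.exp_add]
        congr 1
        ring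
      rw [this]
      ring
    have hgh : Gc c (g + (-1 : ℝ) • h) := Gc_add c _ _ hgG (Gc_smul c _ _ hh1)
    have hbd : ∀ p, 0 ≤ p → |(g + (-1 : ℝ) • h) p| ≤ δ * Real.exp (-(c * p)) := by
      intro p hp
      have h1 : Real.exp (-p) ∈ Set.Icc (0 : ℝ) 1 :=
        ⟨(Real.exp_pos _).le, Real.exp_le_one_iff.mpr (by linarith)⟩
      have h2 := hq _ h1
      have h3 : G (Real.exp (-p)) = Real.exp (c * p) * g p := by
        show (if Real.exp (-p) ≤ 0 then 0 else _) = _
        rw [if_neg (not_le.mpr (Real.exp_pos _)), Real.log_exp, neg_neg]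
      rw [h3] at h2
      have h4 : (g + (-1 : ℝ) • h) p =
          Real.exp (-(c * p)) * (Real.exp (c * p) * g p - q.eval (Real.exp (-p))) := by
        have h5 : Real.exp (-(c * p)) * Real.exp (c * p) = 1 := by
          rw [← Real.exp_add, neg_add_cancel, Real.exp_zero]
        simp only [Pi.add_apply, Pi.smul_apply, smul_eq_mul, hval]
        linear_combination (-(g p)) * h5
      rw [h4, abs_mul, abs_of_pos (Real.exp_pos _), mul_comm]
      apply mul_le_mul_of_nonneg_right _ (Real.exp_pos _).le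
      rw [abs_sub_comm]
      exact h2.le
    have h5 := hB _ δ hgh hbd
    have h6 : D (g + (-1 : ℝ) • h) = D g := by
      rw [hadd _ _ hgG (Gc_smul c _ _ hh1), hsmul _ _ hh1, hh2]
      ring
    rwa [h6] at h5
  -- conclude
  have h7 : |D g| ≤ 0 := by
    apply le_of_forall_pos_le_add
    intro ε hε
    have hB1 : 0 < |B| + 1 := by positivity
    have h8 := key (ε / (|B| + 1)) (div_pos hε hB1)
    have h9 : B * (ε / (|B| + 1)) ≤ ε := by
      rw [← mul_div_assoc, div_le_iff₀ hB1]
      have := le_abs_self B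
      nlinarith
    linarith
  exact abs_eq_zero.mp (le_antisymm h7 (abs_nonneg _))

end Pool.Agent.Helper12.MVP
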