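import Pool.Agent.Helper12.MVP.Defs

/-!
MV-P1. Integrals of exponentials over the orthant; the functional `JM` on exponentials.

Proofs. `restrict_orthant`: the orthant is `Set.pi univ (fun _ => Set.Ioi 0)` and `Measure.restrict_pi_pi`
(`volume = Measure.pi (fun _ => volume)`, `volume_pi`). Then `exp (-∑ b_e x_e) = ∏ exp (-(b_e x_e))`, a product of
integrable functions of one variable (`Integrable.fintype_prod`), integral
`integral_fintype_prod_eq_prod`; one variable: `∫_{x > 0} e^{-b x} dx = 1/b` (`integral_exp_neg_mul_...`,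
`integrableOn_exp_mul_Ioi`, `integral_exp_mul_Ioi`).
`prod_exp_row`: `Real.exp_sum`, exchange of sums. `JM_exp`: `∑_f M f e s_f > 0` as the column sum is `2` and `s > 0`
(some `M f e ≥ 1`).
-/

namespace Pool.Agent.Helper12.MVP

open Finset MeasureTheory Filter Topology Pool.Agent.Helper60.MV

theorem restrict_orthant (ι : Type) [Fintype ι] :
    (volume : Measure (ι → ℝ)).restrict {x : ι → ℝ | ∀ e, 0 < x e} =
      Measure.pi (fun _ : ι => (volume : Measure ℝ).restrict (Set.Ioi 0)) := by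
  have h : {x : ι → ℝ | ∀ e, 0 < x e} = Set.pi Set.univ (fun _ => Set.Ioi (0:ℝ)) := by
    ext x
    simp
  rw [h, volume_pi, Measure.restrict_pi_pi]

theorem one_dim_integrable (b : ℝ) (hb : 0 < b) :
    Integrable (fun t : ℝ => Real.exp (-(b * t))) ((volume : Measure ℝ).restrict (Set.Ioi 0)) := by
  have h := integrableOn_exp_mul_Ioi (a := -b) (by linarith) 0
  refine (integrable_congr ?_).mp h
  refine Filter.Eventually.of_forall (fun t => ?_)
  simp only [neg_mul]

theorem one_dim_integral (b : ℝ) (hb : 0 < b) :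
    ∫ t in Set.Ioi (0:ℝ), Real.exp (-(b * t)) = 1 / b := by
  have h := integral_exp_mul_Ioi (a := -b) (by linarith) 0
  simp only [neg_mul, mul_zero, neg_zero, Real.exp_zero] at h
  rw [h, neg_div_neg_eq]

theorem exp_sum_prod {ι : Type} [Fintype ι] (b x : ι → ℝ) :
    Real.exp (-(∑ e, b e * x e)) = ∏ e, Real.exp (-(b e * x e)) := by
  rw [← Real.exp_sum, Finset.sum_neg_distrib]

theorem exp_orthant_integrable {ι : Type} [Fintype ι] (b : ι → ℝ) (hb : ∀ e, 0 < b e) :
    IntegrableOn (fun x : ι → ℝ => Real.exp (-(∑ e, b e * x e))) {x : ι → ℝ | ∀ e, 0 < x e} := by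
  unfold IntegrableOn
  rw [restrict_orthant]
  simp only [exp_sum_prod]
  exact Integrable.fintype_prod (f := fun e t => Real.exp (-(b e * t)))
    (fun e => one_dim_integrable (b e) (hb e))

theorem exp_orthant_integral {ι : Type} [Fintype ι] (b : ι → ℝ) (hb : ∀ e, 0 < b e) :
    ∫ x in {x : ι → ℝ | ∀ e, 0 < x e}, Real.exp (-(∑ e, b e * x e)) = ∏ e, 1 / b e := by
  rw [restrict_orthant]
  simp only [exp_sum_prod]
  rw [integral_fintype_prod_eq_prod (f := fun e t => Real.exp (-(b e * t)))]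
  refine Finset.prod_congr rfl (fun e _ => ?_)
  exact one_dim_integral (b e) (hb e)

theorem prod_exp_row {φ ι : Type} [Fintype φ] [Fintype ι] (M : φ → ι → ℕ) (s : φ → ℝ)
    (x : ι → ℝ) :
    ∏ f, Real.exp (-(s f * row M f x)) =
      Real.exp (-(∑ e, (∑ f, (M f e : ℝ) * s f) * x e)) := by
  rw [← Real.exp_sum, Finset.sum_neg_distrib]
  congr 2
  unfold row
  have h1 : ∀ f, s f * ∑ e, (M f e : ℝ) * x e = ∑ e, (M f e : ℝ) * s f * x e := by
    intro f
    rw [Finset.mul_sum]
    refine Finset.sum_congr rfl (fun e _ => ?_)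
    ring
  simp only [h1]
  rw [Finset.sum_comm]
  refine Finset.sum_congr rfl (fun e _ => ?_)
  rw [Finset.sum_mul]

theorem JM_exp {φ ι : Type} [Fintype φ] [Fintype ι] (M : φ → ι → ℕ)
    (hM : ∀ e, ∑ f, M f e = 2) (s : φ → ℝ) (hs : ∀ f, 0 < s f) :
    JM M (fun f p => Real.exp (-(s f * p))) = ∏ e, 1 / (∑ f, (M f e : ℝ) * s f) := by
  unfold JM
  simp only [prod_exp_row]
  refine exp_orthant_integral _ (fun e => ?_)
  have h1 : ∃ f, M f e ≠ 0 := by
    by_contra hcon
    push Not at hcon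
    have h2 := hM e
    rw [Finset.sum_eq_zero (fun f _ => hcon f)] at h2
    omega
  obtain ⟨f, hf⟩ := h1
  refine Finset.sum_pos' (fun f _ => mul_nonneg (Nat.cast_nonneg _) (hs f).le)
    ⟨f, Finset.mem_univ f, mul_pos ?_ (hs f)⟩
  exact_mod_cast Nat.pos_of_ne_zero hf

end Pool.Agent.Helper12.MVP
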