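import Pool.Agent.Helper12.MVP.Bound
import Pool.Agent.Helper60.MV.B.Kern

/-!
MV-P10. Gaussian integration of the left side.

Proof. For `a : Fin m → ℝ`, `x` in the orthant put
`Ψ(a,x) = ∏_c phi (a_c) · ∏_f tentE ε (row M f x - a_{(lab f).1}) = ∏_c [phi (a_c) tentE ε (p_{c,0} - a_c) tentE ε (p_{c,1} - a_c)]`
with `p_{c,b} = row M (lab.symm (c,b)) x ≥ 0` (`Equiv.prod_comp`, `Fintype.prod_prod_type`, `Fintype.prod_bool`). It is continuous and
nonnegative. On the support `a_c ≥ p_{c,b} - ε` for both `b`, so `a_c ≥ -ε`, `phi (a_c) ≤ e^{-a_c/2} = e^{-a_c/4} e^{-a_c/4}`,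
`e^{-a_c/4} ≤ e^{ε/2} e^{-|a_c|/4}` and `e^{-a_c/4} ≤ e^{ε/4} e^{-(p_{c,0} + p_{c,1})/8}`. So
`Ψ(a,x) ≤ C ∏_c e^{-|a_c|/4} · e^{-(1/8) ∑_f row M f x} = C ∏_c e^{-|a_c|/4} · e^{-(1/4) ∑_e x_e}` (`sum_row`), integrable on
`(Fin m → ℝ) × orthant` (`Integrable.mul_prod`-like, `Integrable.fintype_prod`, `exp_orthant_integrable`). Hence `Ψ` is integrable on the
product; `a ↦ ∫_x Ψ` is integrable (`Integrable.integral_prod_left`) and Fubini (`integral_integral_swap`) gives
`∫_a ∫_x Ψ = ∫_x ∫_a Ψ`, and `∫_a Ψ = ∏_c kern ε p_{c,0} p_{c,1}` (`integral_fintype_prod_eq_prod`).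
-/

namespace Pool.Agent.Helper12.MVP

open Finset MeasureTheory Filter Topology Pool.Agent.Helper60.MV

private theorem gl_meas (ι : Type) [Fintype ι] :
    MeasurableSet {x : ι → ℝ | ∀ e, 0 < x e} := by
  have : {x : ι → ℝ | ∀ e, 0 < x e} = Set.pi Set.univ (fun _ => Set.Ioi 0) := by
    ext x
    simp
  rw [this]
  exact MeasurableSet.univ_pi fun _ => measurableSet_Ioi

private theorem gl_exp_int : Integrable (fun a : ℝ => Real.exp (-(|a| / 4))) := by
  have h1 : IntegrableOn (fun a : ℝ => Real.exp (-(|a| / 4))) (Set.Ioi 0) := by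
    refine (integrableOn_exp_mul_Ioi (a := -(1/4)) (by norm_num) 0).congr_fun ?_ measurableSet_Ioi
    intro a ha
    have ha' : 0 < a := ha
    show Real.exp (-(1/4) * a) = Real.exp (-(|a| / 4))
    rw [abs_of_pos ha']
    congr 1
    ring
  have h2 : IntegrableOn (fun a : ℝ => Real.exp (-(|a| / 4))) (Set.Iic 0) := by
    refine (integrableOn_exp_mul_Iic (a := 1/4) (by norm_num) 0).congr_fun ?_ measurableSet_Iic
    intro a ha
    have ha' : a ≤ 0 := ha
    show Real.exp ((1/4) * a) = Real.exp (-(|a| / 4))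
    rw [abs_of_nonpos ha']
    congr 1
    ring
  rw [← integrableOn_univ, ← Set.Iic_union_Ioi (a := (0:ℝ))]
  exact h2.union h1

private theorem gl_one (ε : ℝ) (hε : 0 < ε) (a p p' : ℝ) (hp : 0 ≤ p) (hp' : 0 ≤ p') :
    phi a * (tentE ε (p - a) * tentE ε (p' - a)) ≤
      (ε⁻¹ * ε⁻¹ * Real.exp (3 * ε / 4)) *
        (Real.exp (-(|a| / 4)) * Real.exp (-((p + p') / 8))) := by
  rcases le_or_gt ε |p - a| with h | h
  · rw [tentE_zero ε hε _ h, zero_mul, mul_zero]
    positivity
  rcases le_or_gt ε |p' - a| with h' | h'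
  · rw [tentE_zero ε hε _ h', mul_zero, mul_zero]
    positivity
  have h1 := (abs_lt.mp h).2
  have h2 := (abs_lt.mp h').2
  have h3 : phi a ≤ Real.exp (3 * ε / 4) *
      (Real.exp (-(|a| / 4)) * Real.exp (-((p + p') / 8))) := by
    refine (phi_le_exp a).trans ?_
    rw [← Real.exp_add, ← Real.exp_add]
    apply Real.exp_le_exp.mpr
    rcases le_total 0 a with h4 | h4
    · rw [abs_of_nonneg h4]
      linarith
    · rw [abs_of_nonpos h4]
      linarith
  calc phi a * (tentE ε (p - a) * tentE ε (p' - a))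
      ≤ (Real.exp (3 * ε / 4) * (Real.exp (-(|a| / 4)) * Real.exp (-((p + p') / 8)))) *
        (ε⁻¹ * ε⁻¹) := by
        apply mul_le_mul h3
        · exact mul_le_mul (tentE_le ε hε _) (tentE_le ε hε _) (tentE_nonneg ε hε _)
            (inv_nonneg.mpr hε.le)
        · exact mul_nonneg (tentE_nonneg ε hε _) (tentE_nonneg ε hε _)
        · positivity
    _ = _ := by ring

private theorem gl_prod {F ι : Type} [Fintype F] [Fintype ι] (M : F → ι → ℕ)
    {m : ℕ} (lab : F ≃ Fin m × Bool) (ε : ℝ) (a : Fin m → ℝ) (x : ι → ℝ) :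
    (∏ c, phi (a c)) * ∏ f, tentE ε (row M f x - a (lab f).1) =
      ∏ c : Fin m, phi (a c) * (tentE ε (row M (lab.symm (c, false)) x - a c) *
        tentE ε (row M (lab.symm (c, true)) x - a c)) := by
  have h1 : ∏ f, tentE ε (row M f x - a (lab f).1) =
      ∏ q : Fin m × Bool, tentE ε (row M (lab.symm q) x - a q.1) := by
    rw [← Equiv.prod_comp lab]
    apply Finset.prod_congr rfl
    intro j _
    rw [Equiv.symm_apply_apply]
  rw [h1, Fintype.prod_prod_type, ← Finset.prod_mul_distrib]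
  apply Finset.prod_congr rfl
  intro c _
  rw [Fintype.prod_bool]
  ring

private theorem gl_sum {F ι : Type} [Fintype F] [Fintype ι] (M : F → ι → ℕ)
    (hM : ∀ e, ∑ f, M f e = 2) {m : ℕ} (lab : F ≃ Fin m × Bool) (x : ι → ℝ) :
    ∑ c : Fin m, (row M (lab.symm (c, false)) x + row M (lab.symm (c, true)) x) =
      2 * ∑ e, x e := by
  rw [← sum_row M hM x]
  have h1 : ∑ f, row M f x = ∑ q : Fin m × Bool, row M (lab.symm q) x := by
    rw [← Equiv.sum_comp lab]
    apply Finset.sum_congr rfl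
    intro j _
    rw [Equiv.symm_apply_apply]
  rw [h1, Fintype.sum_prod_type]
  apply Finset.sum_congr rfl
  intro c _
  rw [Fintype.sum_bool]
  ring

private theorem gl_int {F ι : Type} [Fintype F] [Fintype ι] (M : F → ι → ℕ)
    (hM : ∀ e, ∑ f, M f e = 2) {m : ℕ} (lab : F ≃ Fin m × Bool) (ε : ℝ) (hε : 0 < ε) :
    Integrable (Function.uncurry (fun (a : Fin m → ℝ) (x : ι → ℝ) =>
      (∏ c, phi (a c)) * ∏ f, tentE ε (row M f x - a (lab f).1)))
      ((volume : Measure (Fin m → ℝ)).prod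
        ((volume : Measure (ι → ℝ)).restrict {x : ι → ℝ | ∀ e, 0 < x e})) := by
  set C : ℝ := (ε⁻¹ * ε⁻¹ * Real.exp (3 * ε / 4)) ^ m with hC
  have hf : Integrable (fun a : Fin m → ℝ => C * ∏ c, Real.exp (-(|a c| / 4))) := by
    apply Integrable.const_mul
    exact Integrable.fintype_prod (f := fun (_ : Fin m) (a : ℝ) => Real.exp (-(|a| / 4)))
      (fun _ => gl_exp_int)
  have hg : IntegrableOn (fun x : ι → ℝ => Real.exp (-(∑ e, (1 / 4 : ℝ) * x e)))
      {x : ι → ℝ | ∀ e, 0 < x e} :=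
    exp_orthant_integrable (fun _ => (1 / 4 : ℝ)) (fun _ => by norm_num)
  have hfg := hf.mul_prod hg
  refine Integrable.mono' hfg ?_ ?_
  · apply Continuous.aestronglyMeasurable
    have h1 := tentE_continuous ε
    have h2 := phi_continuous
    have h3 : ∀ f, Continuous (row M f) := row_continuous M
    unfold Function.uncurry
    apply Continuous.mul
    · apply continuous_finsetProd
      intro c _
      exact h2.comp ((continuous_apply c).comp continuous_fst)
    · apply continuous_finsetProd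
      intro f _
      exact h1.comp (((h3 f).comp continuous_snd).sub
        ((continuous_apply (lab f).1).comp continuous_fst))
  · have hmeas : (volume : Measure (Fin m → ℝ)).prod
        ((volume : Measure (ι → ℝ)).restrict {x : ι → ℝ | ∀ e, 0 < x e}) =
        ((volume : Measure (Fin m → ℝ)).prod (volume : Measure (ι → ℝ))).restrict
          (Set.univ ×ˢ {x : ι → ℝ | ∀ e, 0 < x e}) := by
      rw [← Measure.prod_restrict, Measure.restrict_univ]
    rw [hmeas, ae_restrict_iff' (MeasurableSet.univ.prod (gl_meas ι))]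
    refine Filter.Eventually.of_forall ?_
    rintro ⟨a, x⟩ hx
    have hx' : ∀ e, 0 < x e := hx.2
    have hrow : ∀ f, 0 ≤ row M f x := fun f => row_nonneg M f x fun e => (hx' e).le
    show ‖(∏ c, phi (a c)) * ∏ f, tentE ε (row M f x - a (lab f).1)‖ ≤
      (C * ∏ c, Real.exp (-(|a c| / 4))) * Real.exp (-(∑ e, (1 / 4 : ℝ) * x e))
    rw [gl_prod, Real.norm_of_nonneg (Finset.prod_nonneg fun c _ => mul_nonneg (phi_pos _).le
      (mul_nonneg (tentE_nonneg ε hε _) (tentE_nonneg ε hε _)))]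
    calc ∏ c : Fin m, phi (a c) * (tentE ε (row M (lab.symm (c, false)) x - a c) *
        tentE ε (row M (lab.symm (c, true)) x - a c))
        ≤ ∏ c : Fin m, (ε⁻¹ * ε⁻¹ * Real.exp (3 * ε / 4)) *
          (Real.exp (-(|a c| / 4)) * Real.exp (-((row M (lab.symm (c, false)) x +
            row M (lab.symm (c, true)) x) / 8))) := by
          apply Finset.prod_le_prod
          · intro c _
            exact mul_nonneg (phi_pos _).le
              (mul_nonneg (tentE_nonneg ε hε _) (tentE_nonneg ε hε _))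
          · intro c _
            exact gl_one ε hε _ _ _ (hrow _) (hrow _)
      _ = (C * ∏ c, Real.exp (-(|a c| / 4))) * Real.exp (-(∑ e, (1 / 4 : ℝ) * x e)) := by
          rw [Finset.prod_mul_distrib (f := fun _ : Fin m => ε⁻¹ * ε⁻¹ * Real.exp (3 * ε / 4)),
            Finset.prod_const, Finset.card_univ, Fintype.card_fin, ← hC,
            Finset.prod_mul_distrib, ← Real.exp_sum (f := fun c : Fin m =>
              -((row M (lab.symm (c, false)) x + row M (lab.symm (c, true)) x) / 8)), mul_assoc]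
          congr 3
          rw [Finset.sum_neg_distrib, ← Finset.sum_div, gl_sum M hM lab x, ← Finset.mul_sum]
          ring

private theorem gl_JM {F ι : Type} [Fintype F] [Fintype ι] (M : F → ι → ℕ)
    {m : ℕ} (lab : F ≃ Fin m × Bool) (ε : ℝ) (a : Fin m → ℝ) :
    (∏ c, phi (a c)) * JM M (fun f p => tentE ε (p - a (lab f).1)) =
      ∫ x in {x : ι → ℝ | ∀ e, 0 < x e},
        (∏ c, phi (a c)) * ∏ f, tentE ε (row M f x - a (lab f).1) := by
  unfold JM
  rw [integral_const_mul]

theorem gaussL_integrable {F ι : Type} [Fintype F] [Fintype ι] (M : F → ι → ℕ)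
    (hM : ∀ e, ∑ f, M f e = 2) {m : ℕ} (lab : F ≃ Fin m × Bool) (ε : ℝ) (hε : 0 < ε) :
    Integrable (fun a : Fin m → ℝ =>
      (∏ c, phi (a c)) * JM M (fun f p => tentE ε (p - a (lab f).1))) := by
  simp_rw [gl_JM]
  exact (gl_int M hM lab ε hε).integral_prod_left

theorem gaussL {F ι : Type} [Fintype F] [Fintype ι] (M : F → ι → ℕ)
    (hM : ∀ e, ∑ f, M f e = 2) {m : ℕ} (lab : F ≃ Fin m × Bool) (ε : ℝ) (hε : 0 < ε) :
    ∫ a : Fin m → ℝ, (∏ c, phi (a c)) * JM M (fun f p => tentE ε (p - a (lab f).1)) =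
      ∫ x in {x : ι → ℝ | ∀ e, 0 < x e},
        ∏ c : Fin m, kern ε (row M (lab.symm (c, false)) x) (row M (lab.symm (c, true)) x) := by
  simp_rw [gl_JM]
  rw [integral_integral_swap (gl_int M hM lab ε hε)]
  congr 1
  funext x
  simp_rw [gl_prod]
  rw [integral_fintype_prod_volume_eq_prod (fun (c : Fin m) (a : ℝ) =>
    phi a * (tentE ε (row M (lab.symm (c, false)) x - a) *
        tentE ε (row M (lab.symm (c, true)) x - a)))]
  apply Finset.prod_congr rfl
  intro c _
  unfold kern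
  congr 1
  funext b
  ring

end Pool.Agent.Helper12.MVP
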