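import Pool.Agent.Helper12.MVP.Defs
import Pool.Agent.Helper60.MV.B.Phi
import Pool.Agent.Helper60.MV.B.Tent

/-!
MV-P11. Gaussian integration of the right side.

Proofs. `mom_tent_bound`: `tentE ε (p - a)` is zero unless `|p - a| < ε`, so `0 ≤ p^{2k} ≤ (|a| + ε)^{2k}` on the support (`p > 0`), and
`∫ tentE ε = 1`. `mom_tent_zero`: if `a ≤ -ε` the support does not meet `p > 0`. `mom_tent_meas`: the function `a ↦ mom k (..)` is
continuous (parameter integral), or measurable by `StronglyMeasurable.integral_prod_right`.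
`ce_integrable`: `|phi a · mom k · mom l| ≤ 1_{a ≥ -ε} e^{-a/2} (|a|+ε)^{2k+2l}`, integrable (polynomial times exponential on a half
line). Product over `c`: `∏_j mom (k j) (.. a_{(π j).1}) = ∏_c ∏_b mom (k (π.symm (c,b))) (.. a_c)` (`Equiv.prod_comp`), so the integrand is
`∏_c h_c(a_c)` with `h_c` integrable: `Integrable.fintype_prod`, `integral_fintype_prod_eq_prod`.
-/

namespace Pool.Agent.Helper12.MVP

open Finset MeasureTheory Filter Topology Pool.Agent.Helper60.MV

theorem mom_tent_nonneg (k : ℕ) (ε : ℝ) (hε : 0 < ε) (a : ℝ) :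
    0 ≤ mom k (fun p => tentE ε (p - a)) := by
  unfold mom
  apply setIntegral_nonneg measurableSet_Ioi
  intro p hp
  have hp' : 0 < p := hp
  exact mul_nonneg (tentE_nonneg ε hε _) (by positivity)

theorem mom_tent_bound (k : ℕ) (ε : ℝ) (hε : 0 < ε) (a : ℝ) :
    mom k (fun p => tentE ε (p - a)) ≤ (|a| + ε) ^ (2 * k) := by
  have hint : Integrable (fun p : ℝ => tentE ε (p - a) * (|a| + ε) ^ (2 * k)) :=
    ((tentE_integrable ε hε).comp_sub_right a).mul_const _
  have h1 : mom k (fun p => tentE ε (p - a)) ≤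
      ∫ p in Set.Ioi (0:ℝ), tentE ε (p - a) * (|a| + ε) ^ (2 * k) := by
    unfold mom
    apply integral_mono_of_nonneg
    · rw [Filter.EventuallyLE, ae_restrict_iff' measurableSet_Ioi]
      refine Filter.Eventually.of_forall fun p hp => ?_
      have hp' : 0 < p := hp
      exact mul_nonneg (tentE_nonneg ε hε _) (by positivity)
    · exact hint.integrableOn
    · rw [Filter.EventuallyLE, ae_restrict_iff' measurableSet_Ioi]
      refine Filter.Eventually.of_forall fun p hp => ?_
      have hp' : 0 < p := hp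
      show tentE ε (p - a) * (p ^ (2 * k) / ((2 * k).factorial : ℝ)) ≤ _
      rcases le_or_gt ε |p - a| with h | h
      · rw [tentE_zero ε hε _ h, zero_mul, zero_mul]
      · apply mul_le_mul_of_nonneg_left _ (tentE_nonneg ε hε _)
        have h2 : p ≤ |a| + ε := by
          have h3 := (abs_lt.mp h).2
          have h4 := le_abs_self a
          linarith
        have h5 : (1 : ℝ) ≤ ((2 * k).factorial : ℝ) := by
          exact_mod_cast Nat.succ_le_of_lt (Nat.factorial_pos _)
        calc p ^ (2 * k) / ((2 * k).factorial : ℝ) ≤ p ^ (2 * k) := div_le_self (by positivity) h5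
          _ ≤ (|a| + ε) ^ (2 * k) := pow_le_pow_left₀ hp'.le h2 _
  have h2 : ∫ p in Set.Ioi (0:ℝ), tentE ε (p - a) * (|a| + ε) ^ (2 * k) ≤
      ∫ p : ℝ, tentE ε (p - a) * (|a| + ε) ^ (2 * k) := by
    apply setIntegral_le_integral hint
    refine Filter.Eventually.of_forall fun p => ?_
    exact mul_nonneg (tentE_nonneg ε hε _) (by positivity)
  have h3 : ∫ p : ℝ, tentE ε (p - a) * (|a| + ε) ^ (2 * k) = (|a| + ε) ^ (2 * k) := by
    rw [integral_mul_const, integral_sub_right_eq_self (tentE ε) a, tentE_integral ε hε,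
      one_mul]
  rw [h3] at h2
  exact h1.trans h2

theorem mom_tent_zero (k : ℕ) (ε : ℝ) (hε : 0 < ε) (a : ℝ) (ha : a ≤ -ε) :
    mom k (fun p => tentE ε (p - a)) = 0 := by
  unfold mom
  apply setIntegral_eq_zero_of_forall_eq_zero
  intro p hp
  have hp' : 0 < p := hp
  have h : ε ≤ |p - a| := by
    rw [abs_of_pos (by linarith)]
    linarith
  show tentE ε (p - a) * (p ^ (2 * k) / ((2 * k).factorial : ℝ)) = 0
  rw [tentE_zero ε hε _ h, zero_mul]

theorem mom_tent_meas (k : ℕ) (ε : ℝ) (hε : 0 < ε) :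
    Measurable (fun a : ℝ => mom k (fun p => tentE ε (p - a))) := by
  unfold mom
  have h : Continuous (Function.uncurry (fun a p : ℝ =>
      tentE ε (p - a) * (p ^ (2 * k) / ((2 * k).factorial : ℝ)))) := by
    have h1 := tentE_continuous ε
    unfold Function.uncurry
    fun_prop
  exact (h.stronglyMeasurable.integral_prod_right).measurable

private theorem gr_exp_int : Integrable (fun a : ℝ => Real.exp (-(|a| / 4))) := by
  have h1 : IntegrableOn (fun a : ℝ => Real.exp (-(|a| / 4))) (Set.Ioi 0) := by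
    refine (integrableOn_exp_mul_Ioi (a := -(1/4)) (by norm_num) 0).congr_fun ?_ measurableSet_Ioi
    intro a ha
    have ha' : 0 < a := ha
    show Real.exp (-(1/4) * a) = Real.exp (-(|a| / 4))
    rw [abs_of_pos ha']
    congr 1
    ring
  have h2 : IntegrableOn (fun a : ℝ => Real.exp (-(|a| / 4))) (Set.Iic 0) := by
    refine (integrableOn_exp_mul_Iic (a := 1/4) (by norm_num) 0).congr_fun ?_ measurableSet_Iic
    intro a ha
    have ha' : a ≤ 0 := ha
    show Real.exp ((1/4) * a) = Real.exp (-(|a| / 4))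
    rw [abs_of_nonpos ha']
    congr 1
    ring
  rw [← integrableOn_univ, ← Set.Iic_union_Ioi (a := (0:ℝ))]
  exact h2.union h1

private theorem gr_bound (k l : ℕ) (ε : ℝ) (hε : 0 < ε) (a : ℝ) :
    phi a * (mom k (fun p => tentE ε (p - a)) * mom l (fun p => tentE ε (p - a))) ≤
      (Real.exp ε * ((4 ^ (2 * k + 2 * l) * ((2 * k + 2 * l).factorial : ℝ)) * Real.exp (ε / 4))) *
        Real.exp (-(|a| / 4)) := by
  rcases le_or_gt a (-ε) with ha | ha
  · rw [mom_tent_zero k ε hε a ha, zero_mul, mul_zero]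
    positivity
  · have h1 : phi a ≤ Real.exp ε * Real.exp (-(|a| / 2)) := by
      refine (phi_le_exp a).trans ?_
      rw [← Real.exp_add]
      apply Real.exp_le_exp.mpr
      rcases le_total 0 a with h | h
      · rw [abs_of_nonneg h]
        linarith
      · rw [abs_of_nonpos h]
        linarith
    set n := 2 * k + 2 * l with hn
    have h2 : mom k (fun p => tentE ε (p - a)) * mom l (fun p => tentE ε (p - a)) ≤
        (|a| + ε) ^ n := by
      calc _ ≤ (|a| + ε) ^ (2 * k) * (|a| + ε) ^ (2 * l) :=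
            mul_le_mul (mom_tent_bound k ε hε a) (mom_tent_bound l ε hε a)
              (mom_tent_nonneg l ε hε a) (by positivity)
        _ = (|a| + ε) ^ n := by rw [← pow_add]
    have h3 : (|a| + ε) ^ n ≤ (4 ^ n * (n.factorial : ℝ)) * Real.exp ((|a| + ε) / 4) := by
      have h4 := Real.pow_div_factorial_le_exp ((|a| + ε) / 4) (by positivity) n
      rw [div_le_iff₀ (by positivity), div_pow, div_le_iff₀ (by positivity)] at h4
      calc (|a| + ε) ^ n ≤ Real.exp ((|a| + ε) / 4) * (n.factorial : ℝ) * 4 ^ n := h4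
        _ = _ := by ring
    calc phi a * (mom k (fun p => tentE ε (p - a)) * mom l (fun p => tentE ε (p - a)))
        ≤ (Real.exp ε * Real.exp (-(|a| / 2))) *
          ((4 ^ n * (n.factorial : ℝ)) * Real.exp ((|a| + ε) / 4)) := by
          apply mul_le_mul h1 (h2.trans h3)
          · exact mul_nonneg (mom_tent_nonneg k ε hε a) (mom_tent_nonneg l ε hε a)
          · positivity
      _ = (Real.exp ε * (4 ^ n * (n.factorial : ℝ))) *
          (Real.exp (-(|a| / 2)) * Real.exp ((|a| + ε) / 4)) := by ring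
      _ = (Real.exp ε * (4 ^ n * (n.factorial : ℝ))) *
          (Real.exp (ε / 4) * Real.exp (-(|a| / 4))) := by
          rw [← Real.exp_add, ← Real.exp_add]
          congr 2
          ring
      _ = _ := by ring

theorem ce_integrable (k l : ℕ) (ε : ℝ) (hε : 0 < ε) :
    Integrable (fun a : ℝ =>
      phi a * (mom k (fun p => tentE ε (p - a)) * mom l (fun p => tentE ε (p - a)))) := by
  refine Integrable.mono' (gr_exp_int.const_mul
    (Real.exp ε * ((4 ^ (2 * k + 2 * l) * ((2 * k + 2 * l).factorial : ℝ)) * Real.exp (ε / 4)))) ?_ ?_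
  · exact (phi_continuous.measurable.mul
      ((mom_tent_meas k ε hε).mul (mom_tent_meas l ε hε))).aestronglyMeasurable
  · refine Filter.Eventually.of_forall fun a => ?_
    rw [Real.norm_of_nonneg (mul_nonneg (phi_pos a).le
      (mul_nonneg (mom_tent_nonneg k ε hε a) (mom_tent_nonneg l ε hε a)))]
    exact gr_bound k l ε hε a

private theorem gr_prod {m n : ℕ} (π : Fin n ≃ Fin m × Bool) (k : Fin n → ℕ) (ε : ℝ)
    (a : Fin m → ℝ) :
    (∏ c, phi (a c)) * ∏ j, mom (k j) (fun p => tentE ε (p - a (π j).1)) =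
      ∏ c : Fin m, phi (a c) * (mom (k (π.symm (c, false))) (fun p => tentE ε (p - a c)) *
        mom (k (π.symm (c, true))) (fun p => tentE ε (p - a c))) := by
  have h1 : ∏ j, mom (k j) (fun p => tentE ε (p - a (π j).1)) =
      ∏ q : Fin m × Bool, mom (k (π.symm q)) (fun p => tentE ε (p - a q.1)) := by
    rw [← Equiv.prod_comp π]
    apply Finset.prod_congr rfl
    intro j _
    rw [Equiv.symm_apply_apply]
  rw [h1, Fintype.prod_prod_type, ← Finset.prod_mul_distrib]
  apply Finset.prod_congr rfl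
  intro c _
  rw [Fintype.prod_bool]
  ring

theorem gaussR_integrable {m n : ℕ} (π : Fin n ≃ Fin m × Bool) (k : Fin n → ℕ) (ε : ℝ)
    (hε : 0 < ε) :
    Integrable (fun a : Fin m → ℝ =>
      (∏ c, phi (a c)) * ∏ j, mom (k j) (fun p => tentE ε (p - a (π j).1))) := by
  simp_rw [gr_prod]
  exact Integrable.fintype_prod (f := fun (c : Fin m) (a : ℝ) =>
    phi a * (mom (k (π.symm (c, false))) (fun p => tentE ε (p - a)) *
        mom (k (π.symm (c, true))) (fun p => tentE ε (p - a))))
    (fun c => ce_integrable _ _ ε hε)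

theorem gaussR {m n : ℕ} (π : Fin n ≃ Fin m × Bool) (k : Fin n → ℕ) (ε : ℝ) (hε : 0 < ε) :
    ∫ a : Fin m → ℝ, (∏ c, phi (a c)) * ∏ j, mom (k j) (fun p => tentE ε (p - a (π j).1)) =
      ∏ c : Fin m, Ce ε (k (π.symm (c, false))) (k (π.symm (c, true))) := by
  simp_rw [gr_prod]
  rw [integral_fintype_prod_volume_eq_prod (fun (c : Fin m) (a : ℝ) =>
    phi a * (mom (k (π.symm (c, false))) (fun p => tentE ε (p - a)) *
        mom (k (π.symm (c, true))) (fun p => tentE ε (p - a))))]
  rfl

end Pool.Agent.Helper12.MVP
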