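import Pool.Agent.Helper12.MVP.Defs

/-!
MV-P15. The Hafnian as a sum over bijections with `Fin m × Bool`.

Proofs. `hfL_odd`, `hfL_tendsto`: strong induction on the length through the recursion of `hfL` (unfold with `hfL`/`rw [hfL]`; the list
`xs.eraseIdx j` has length `xs.length - 1`).
`hfL_sum`, `A` symmetric: write `S(F, Φ) = ∑_{e : F ≃ Fin m × Bool} ∏_c Φ (e.symm (c,false)) (e.symm (c,true))` for a finite type `F`.
Recursion: if `|F| = 2(m+1)` and `f0 ∈ F` then `S(F, Φ) = 2 (m+1) ∑_{f ≠ f0} Φ f0 f · S({x // x ≠ f0 ∧ x ≠ f}, Φ)`: split by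
`e f0 = (c0,b0)` (`2(m+1)` choices, all with the same sum by symmetry: compose `e` with a permutation of `Fin (m+1)` and a flip) and
`f = e.symm (c0, !b0)`; the rest is a bijection `F∖{f0,f} ≃ (Fin (m+1)∖{c0}) × Bool ≃ Fin m × Bool`. For `F = Fin (x :: xs).length`,
`f0 = 0`, `f = j+1`: the remaining positions correspond to the positions of `xs.eraseIdx j` compatibly with `get`
(`List.get_eraseIdx`/`List.getElem_eraseIdx`), and `hfL A (x::xs) = ∑_j A x (xs.get j) hfL A (xs.eraseIdx j)`. By induction
`S = 2 (m+1) ∑_j A x (xs.get j) · 2^m m! hfL A (xs.eraseIdx j) = 2^{m+1} (m+1)! hfL A (x::xs)`. It may be convenient to prove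
first a general invariance lemma: `S` for `F` and `S` for `F'` agree along an equivalence `F ≃ F'` compatible with `Φ`. If
`L.length ≠ 2 m` there is no equivalence.
-/

namespace Pool.Agent.Helper12.MVP

open Finset Filter Topology Pool.Agent.Helper60.MV

theorem hfL_odd (A : ℕ → ℕ → ℝ) (L : List ℕ) (h : Odd L.length) : hfL A L = 0 := by
  induction hn : L.length using Nat.strong_induction_on generalizing L with
  | _ n ih =>
    match L, h, hn with
    | [], h, _ => simp at h
    | x :: xs, h, hn =>
      rw [hfL]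
      apply Finset.sum_eq_zero
      intro j _
      have hj := j.2
      have h1 : (xs.eraseIdx j).length = xs.length - 1 := List.length_eraseIdx_of_lt hj
      simp only [List.length_cons] at h hn
      rw [ih (xs.eraseIdx j).length (by omega) (xs.eraseIdx j) (by
        rw [h1]
        obtain ⟨k, hk⟩ := h
        refine ⟨k - 1, ?_⟩
        omega) rfl, mul_zero]

theorem hfL_tendsto {X : Type} (l : Filter X) (A : X → ℕ → ℕ → ℝ) (B : ℕ → ℕ → ℝ)
    (h : ∀ i j, Tendsto (fun x => A x i j) l (𝓝 (B i j))) (L : List ℕ) :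
    Tendsto (fun x => hfL (A x) L) l (𝓝 (hfL B L)) := by
  induction hn : L.length using Nat.strong_induction_on generalizing L with
  | _ n ih =>
    match L, hn with
    | [], _ =>
      simp only [hfL]
      exact tendsto_const_nhds
    | y :: ys, hn =>
      simp only [hfL]
      apply tendsto_finsetSum
      intro j _
      have hj := j.2
      have h1 : (ys.eraseIdx j).length = ys.length - 1 := List.length_eraseIdx_of_lt hj
      simp only [List.length_cons] at hn
      exact (h _ _).mul (ih (ys.eraseIdx j).length (by omega) (ys.eraseIdx j) rfl)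

namespace Haf

/-- summand -/
noncomputable def w {n : ℕ} (A : ℕ → ℕ → ℝ) (m : ℕ) (g : Fin n → ℕ) (e : Fin n ≃ Fin m × Bool) : ℝ :=
  ∏ c : Fin m, A (g (e.symm (c, false))) (g (e.symm (c, true)))

/-- permutation of the target moving `(0, false)` to `(c0, b0)` -/
def pi {m : ℕ} (p : Fin (m + 1) × Bool) : Equiv.Perm (Fin (m + 1) × Bool) where
  toFun q := (Equiv.swap 0 p.1 q.1, if q.1 = 0 then xor q.2 p.2 else q.2)
  invFun q := (Equiv.swap 0 p.1 q.1, if Equiv.swap 0 p.1 q.1 = 0 then xor q.2 p.2 else q.2)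
  left_inv q := by
    obtain ⟨c, b⟩ := q
    by_cases h : c = 0 <;> simp [h]
  right_inv q := by
    obtain ⟨c, b⟩ := q
    by_cases h : Equiv.swap 0 p.1 c = 0
    · have h2 : c = p.1 := by
        have h3 := (Equiv.swap_apply_eq_iff).1 h
        rw [h3, Equiv.swap_apply_left]
      simp [h2]
    · simp [h]

lemma w_pi {n m : ℕ} (A : ℕ → ℕ → ℝ) (hs : ∀ i j, A i j = A j i) (g : Fin n → ℕ)
    (e : Fin n ≃ Fin (m + 1) × Bool) (p : Fin (m + 1) × Bool) :
    w A (m + 1) g (e.trans (pi p)) = w A (m + 1) g e := by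
  unfold w
  refine Fintype.prod_equiv (Equiv.swap 0 p.1) _ _ fun c => ?_
  have h1 : ∀ b, (e.trans (pi p)).symm (c, b) =
      e.symm (Equiv.swap 0 p.1 c, if Equiv.swap 0 p.1 c = 0 then xor b p.2 else b) := fun b => rfl
  rw [h1, h1]
  by_cases h : Equiv.swap 0 p.1 c = 0
  · rw [if_pos h, if_pos h]
    cases p.2
    · simp
    · simp only [Bool.xor_true, Bool.not_false, Bool.not_true]
      rw [hs]
  · rw [if_neg h, if_neg h]

/-- `Option (Option (Fin m × Bool)) ≃ Fin (m+1) × Bool` -/
def T (m : ℕ) : Option (Option (Fin m × Bool)) ≃ Fin (m + 1) × Bool where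
  toFun
    | none => (0, false)
    | some none => (0, true)
    | some (some (c, b)) => (c.succ, b)
  invFun q := Fin.cases (if q.2 then some none else none) (fun c => some (some (c, q.2))) q.1
  left_inv q := by
    rcases q with _ | _ | ⟨c, b⟩ <;> simp
  right_inv q := by
    obtain ⟨c, b⟩ := q
    refine Fin.cases ?_ (fun c => ?_) c
    · cases b <;> simp
    · simp

/-- decomposition of the source -/
def D (n : ℕ) (j : Fin (n + 1)) : Fin (n + 2) ≃ Option (Option (Fin n)) :=
  (finSuccEquiv' 0).trans (Equiv.optionCongr (finSuccEquiv' j))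

def base {n m : ℕ} (j : Fin (n + 1)) (e : Fin n ≃ Fin m × Bool) : Fin (n + 2) ≃ Fin (m + 1) × Bool :=
  (D n j).trans ((Equiv.optionCongr (Equiv.optionCongr e)).trans (T m))

lemma base_symm {n m : ℕ} (j : Fin (n + 1)) (e : Fin n ≃ Fin m × Bool) (q : Fin (m + 1) × Bool) :
    (base j e).symm q = (finSuccEquiv' (0 : Fin (n + 2))).symm
      (((T m).symm q).map (fun r => (finSuccEquiv' j).symm (r.map e.symm))) := by
  have h1 : (base j e).symm q = (finSuccEquiv' (0 : Fin (n + 2))).symm
      ((((T m).symm q).map (Option.map e.symm)).map ((finSuccEquiv' j).symm)) := rfl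
  rw [h1, Option.map_map]
  rfl

lemma base_symm_zero_false {n m : ℕ} (j : Fin (n + 1)) (e : Fin n ≃ Fin m × Bool) :
    (base j e).symm (0, false) = 0 := by
  simp [base_symm, T]

lemma base_symm_zero_true {n m : ℕ} (j : Fin (n + 1)) (e : Fin n ≃ Fin m × Bool) :
    (base j e).symm (0, true) = j.succ := by
  simp [base_symm, T]

lemma base_symm_succ {n m : ℕ} (j : Fin (n + 1)) (e : Fin n ≃ Fin m × Bool) (c : Fin m) (b : Bool) :
    (base j e).symm (c.succ, b) = (j.succAbove (e.symm (c, b))).succ := by
  simp [base_symm, T]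

lemma w_base {n m : ℕ} (A : ℕ → ℕ → ℝ) (g : Fin (n + 2) → ℕ) (j : Fin (n + 1))
    (e : Fin n ≃ Fin m × Bool) :
    w A (m + 1) g (base j e) = A (g 0) (g j.succ) * w A m (fun k => g (j.succAbove k).succ) e := by
  unfold w
  rw [Fin.prod_univ_succ, base_symm_zero_false, base_symm_zero_true]
  simp only [base_symm_succ]

/-- the parametrisation -/
def Psi {n m : ℕ} (q : (Fin (m + 1) × Bool) × Fin (n + 1) × (Fin n ≃ Fin m × Bool)) :
    Fin (n + 2) ≃ Fin (m + 1) × Bool := (base q.2.1 q.2.2).trans (pi q.1)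

lemma Psi_inj {n m : ℕ} : Function.Injective (Psi (n := n) (m := m)) := by
  rintro ⟨p, j, e⟩ ⟨p', j', e'⟩ h
  have h0 : p = p' := by
    have h1 := congrArg (fun f => f 0) h
    have h2 : ∀ (p : Fin (m + 1) × Bool) (j : Fin (n + 1)) (e : Fin n ≃ Fin m × Bool),
        (Psi (p, j, e)) 0 = p := by
      intro p j e
      have h3 : (base j e) 0 = (0, false) := by
        rw [← base_symm_zero_false j e, Equiv.apply_symm_apply]
      simp [Psi, h3, pi]
    simpa only [h2] using h1
  subst h0
  have h1 : base j e = base j' e' := by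
    have h2 := congrArg (fun f => f.trans (pi p).symm) h
    simpa [Psi, Equiv.trans_assoc] using h2
  have h2 : j = j' := by
    have h3 := congrArg (fun f => f.symm (0, true)) h1
    simp only [base_symm_zero_true] at h3
    exact Fin.succ_injective _ h3
  subst h2
  have h3 : e = e' := by
    apply Equiv.symm_bijective.injective
    ext1 ⟨c, b⟩
    have h4 := congrArg (fun f => f.symm (c.succ, b)) h1
    simp only [base_symm_succ] at h4
    exact Fin.succAbove_right_injective (Fin.succ_injective _ h4)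
  rw [h3]

lemma Psi_bij {n m : ℕ} (hn : n = 2 * m) : Function.Bijective (Psi (n := n) (m := m)) := by
  rw [Fintype.bijective_iff_injective_and_card]
  refine ⟨Psi_inj, ?_⟩
  have e1 : Fin n ≃ Fin m × Bool := Fintype.equivOfCardEq (by simp [hn]; ring)
  have e2 : Fin (n + 2) ≃ Fin (m + 1) × Bool := Fintype.equivOfCardEq (by simp [hn]; ring)
  have c1 : Fintype.card (Fin n ≃ Fin m × Bool) = n.factorial := by
    rw [Fintype.card_equiv e1, Fintype.card_fin]
  have c2 : Fintype.card (Fin (n + 2) ≃ Fin (m + 1) × Bool) = (n + 2).factorial := by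
    rw [Fintype.card_equiv e2, Fintype.card_fin]
  simp only [Fintype.card_prod, c1, c2, Fintype.card_fin, Fintype.card_bool, Nat.factorial_succ]
  subst hn
  ring

lemma rec_S {n m : ℕ} (hn : n = 2 * m) (A : ℕ → ℕ → ℝ) (hs : ∀ i j, A i j = A j i)
    (g : Fin (n + 2) → ℕ) :
    ∑ e : Fin (n + 2) ≃ Fin (m + 1) × Bool, w A (m + 1) g e =
      2 * (m + 1) * ∑ j : Fin (n + 1), A (g 0) (g j.succ) *
        ∑ e : Fin n ≃ Fin m × Bool, w A m (fun k => g (j.succAbove k).succ) e := by
  have h1 : ∑ e : Fin (n + 2) ≃ Fin (m + 1) × Bool, w A (m + 1) g e =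
      ∑ q : (Fin (m + 1) × Bool) × Fin (n + 1) × (Fin n ≃ Fin m × Bool), w A (m + 1) g (Psi q) :=
    ((Psi_bij hn).sum_comp (fun e => w A (m + 1) g e)).symm
  rw [h1, Fintype.sum_prod_type]
  have h2 : ∀ p : Fin (m + 1) × Bool, ∑ q : Fin (n + 1) × (Fin n ≃ Fin m × Bool),
      w A (m + 1) g (Psi (p, q)) = ∑ j : Fin (n + 1), A (g 0) (g j.succ) *
        ∑ e : Fin n ≃ Fin m × Bool, w A m (fun k => g (j.succAbove k).succ) e := by
    intro p
    rw [Fintype.sum_prod_type]
    refine Finset.sum_congr rfl fun j _ => ?_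
    rw [Finset.mul_sum]
    refine Finset.sum_congr rfl fun e _ => ?_
    rw [Psi, w_pi A hs, w_base]
  simp only [h2, Finset.sum_const, Finset.card_univ, Fintype.card_prod, Fintype.card_fin,
    Fintype.card_bool, nsmul_eq_mul]
  push_cast
  ring

/-- the statement for a list `L` of length `n = 2 m` and `g : Fin n → ℕ` listing it -/
lemma main (A : ℕ → ℕ → ℝ) (hs : ∀ i j, A i j = A j i) (m : ℕ) :
    ∀ (L : List ℕ) (n : ℕ) (_ : n = 2 * m) (hL : L.length = n) (g : Fin n → ℕ)
      (_ : ∀ k : Fin n, g k = L.get (k.cast hL.symm)),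
      ∑ e : Fin n ≃ Fin m × Bool, w A m g e = (2 ^ m * m.factorial : ℝ) * hfL A L := by
  induction m with
  | zero =>
    intro L n hn hL g hg
    subst hn
    have h0 : L = [] := List.eq_nil_of_length_eq_zero hL
    subst h0
    have h1 : Fintype.card (Fin (2 * 0) ≃ Fin 0 × Bool) = 1 := by
      rw [Fintype.card_equiv (Fintype.equivOfCardEq (by simp))]
      simp
    simp only [w, Finset.univ_eq_empty, Finset.prod_empty, Finset.sum_const, Finset.card_univ, h1]
    simp [hfL]
  | succ m ih =>
    intro L n hn hL g hg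
    obtain ⟨n', rfl⟩ : ∃ n', n = n' + 2 := ⟨2 * m, by omega⟩
    have hn' : n' = 2 * m := by omega
    match L, hL, hg with
    | [], hL, _ => simp at hL
    | x :: xs, hL, hg =>
      have hxs : xs.length = n' + 1 := by simpa using hL
      rw [rec_S hn' A hs g, hfL]
      have hg0 : g 0 = x := by rw [hg]; rfl
      have hgs : ∀ j : Fin (n' + 1), g j.succ = xs.get (j.cast hxs.symm) := by
        intro j
        rw [hg]
        rfl
      have key : ∀ j : Fin (n' + 1),
          ∑ e : Fin n' ≃ Fin m × Bool, w A m (fun k => g (j.succAbove k).succ) e =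
            (2 ^ m * m.factorial : ℝ) * hfL A (xs.eraseIdx j) := by
        intro j
        have hl : (xs.eraseIdx j).length = n' := by
          rw [List.length_eraseIdx_of_lt (by omega), hxs]
          rfl
        refine ih (xs.eraseIdx j) n' hn' hl _ fun k => ?_
        rw [hgs]
        simp only [List.get_eq_getElem, Fin.val_cast, List.getElem_eraseIdx, Fin.succAbove,
          Fin.lt_def, Fin.val_castSucc]
        by_cases h : (k : ℕ) < j
        · simp [h]
        · simp [h]
      rw [← Equiv.sum_comp (finCongr hxs.symm)]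
      simp only [key]
      simp only [hg0, hgs]
      rw [Finset.mul_sum, Finset.mul_sum]
      refine Finset.sum_congr rfl fun j _ => ?_
      simp only [finCongr_apply, Fin.val_cast]
      rw [Nat.factorial_succ]
      push_cast
      ring

end Haf

theorem hfL_sum (A : ℕ → ℕ → ℝ) (hs : ∀ i j, A i j = A j i) (L : List ℕ) (m : ℕ) :
    ∑ e : Fin L.length ≃ Fin m × Bool,
      ∏ c : Fin m, A (L.get (e.symm (c, false))) (L.get (e.symm (c, true))) =
      if L.length = 2 * m then (2 ^ m * m.factorial : ℝ) * hfL A L else 0 := by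
  split_ifs with h
  · exact Haf.main A hs m L L.length h rfl L.get fun k => rfl
  · have : IsEmpty (Fin L.length ≃ Fin m × Bool) := by
      constructor
      intro e
      apply h
      have := Fintype.card_congr e
      simp at this
      omega
    rw [Finset.univ_eq_empty, Finset.sum_empty]

end Pool.Agent.Helper12.MVP
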