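import Pool.Agent.Helper12.MVP.Exp

/-!
MV-P6. Incidence matrix of a pairing and the sum `PKs` through the functional `JM`.

Proofs. For a pairing `τ` each cycle `e : Cyc τ` has exactly the two elements `e.rep` and `τ e.rep ≠ e.rep`
(`SameCycle` for an involution: `cyc τ h = cyc τ h' ↔ h' = h ∨ h' = τ h`). Hence for any `s` on faces
`∑_f MT σ τ f e · s f = ∑_{h : cyc τ h = e} s (cyc (σ τ) h) = s(cyc e.rep) + s(cyc (τ e.rep))` (`MT_sum`), in particular column sums `2`
(`MT_col`).
`lab_equiv_sum`: functions `lab : H → β` with `lab (g h) = lab h` for all `h` correspond to functions on `Cyc g` (`lab = lab' ∘ cyc g`: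
`Quotient.lift`; invariance under `g` implies invariance under `SameCycle`, i.e. under integer powers of `g`).
`PKs_eq`: apply `lab_equiv_sum` for `g = σ τ` and `JM_exp`, `MT_sum`.
-/

namespace Pool.Agent.Helper12.MVP

open Finset MeasureTheory Filter Topology Pool.Agent.Helper60.MV

theorem cyc_rep {H : Type} (g : Equiv.Perm H) (c : Cyc g) : cyc g c.rep = c :=
  Quotient.out_eq c

theorem zpow_pairing {H : Type} (τ : Equiv.Perm H) (hτ : IsPairing τ) (n : ℤ) (h : H) :
    (τ ^ n) h = h ∨ (τ ^ n) h = τ h := by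
  have h2 : τ * τ = 1 := by
    ext x
    simpa using hτ.invol x
  rcases Int.even_or_odd' n with ⟨k, hk | hk⟩
  · left
    rw [hk, zpow_mul, zpow_two, h2, one_zpow]
    rfl
  · right
    rw [hk, zpow_add, zpow_mul, zpow_two, h2, one_zpow, one_mul, zpow_one]

theorem cyc_eq_iff {H : Type} (τ : Equiv.Perm H) (hτ : IsPairing τ) (h h' : H) :
    cyc τ h = cyc τ h' ↔ h' = h ∨ h' = τ h := by
  have h0 : cyc τ h = cyc τ h' ↔ τ.SameCycle h h' := by
    unfold cyc
    exact Quotient.eq (r := Equiv.Perm.SameCycle.setoid τ)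
  rw [h0]
  constructor
  · rintro ⟨n, hn⟩
    rcases zpow_pairing τ hτ n h with h1 | h1
    · left
      rw [← hn, h1]
    · right
      rw [← hn, h1]
  · rintro (h1 | h1)
    · rw [h1]
    · exact ⟨1, by rw [zpow_one, h1]⟩

theorem MT_sum {H : Type} [Fintype H] (σ τ : Equiv.Perm H) (hτ : IsPairing τ)
    (s : Cyc (σ * τ) → ℝ) (e : Cyc τ) :
    ∑ f, (MT σ τ f e : ℝ) * s f = s (cyc (σ * τ) e.rep) + s (cyc (σ * τ) (τ e.rep)) := by
  classical
  have h1 : ∀ f : Cyc (σ * τ), (MT σ τ f e : ℝ) * s f =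
      ∑ h : H, if cyc (σ * τ) h = f then (if cyc τ h = e then s (cyc (σ * τ) h) else 0) else 0 := by
    intro f
    have h2 : (MT σ τ f e : ℝ) =
        ∑ h : H, if cyc (σ * τ) h = f ∧ cyc τ h = e then (1:ℝ) else 0 := by
      unfold MT
      rw [Finset.card_filter]
      push_cast
      refine Finset.sum_congr rfl (fun h _ => ?_)
      split_ifs <;> rfl
    rw [h2, Finset.sum_mul]
    refine Finset.sum_congr rfl (fun h _ => ?_)
    by_cases hf : cyc (σ * τ) h = f
    · by_cases he : cyc τ h = e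
      · rw [if_pos ⟨hf, he⟩, if_pos hf, if_pos he, hf, one_mul]
      · rw [if_neg (fun h' => he h'.2), if_pos hf, if_neg he, zero_mul]
    · rw [if_neg (fun h' => hf h'.1), if_neg hf, zero_mul]
  simp only [h1]
  rw [Finset.sum_comm]
  have h3 : ∀ h : H, (∑ f : Cyc (σ * τ), if cyc (σ * τ) h = f then
      (if cyc τ h = e then s (cyc (σ * τ) h) else 0) else 0) =
      if cyc τ h = e then s (cyc (σ * τ) h) else 0 := by
    intro h
    rw [Finset.sum_ite_eq]
    simp
  simp only [h3]
  rw [← Finset.sum_filter]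
  have h4 : univ.filter (fun h : H => cyc τ h = e) = {e.rep, τ e.rep} := by
    ext h
    rw [Finset.mem_filter, Finset.mem_insert, Finset.mem_singleton]
    conv_lhs => rw [← cyc_rep τ e]
    rw [eq_comm (a := cyc τ h), cyc_eq_iff τ hτ]
    simp
  rw [h4, Finset.sum_pair (fun h => hτ.fpf _ h.symm)]

theorem MT_col {H : Type} [Fintype H] (σ τ : Equiv.Perm H) (hτ : IsPairing τ) (e : Cyc τ) :
    ∑ f, MT σ τ f e = 2 := by
  have h := MT_sum σ τ hτ (fun _ => 1) e
  simp only [mul_one] at h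
  have h2 : ((∑ f, MT σ τ f e : ℕ) : ℝ) = (2 : ℕ) := by
    push_cast
    rw [h]
    norm_num
  exact_mod_cast h2

theorem lab_sum {H β : Type} [Fintype H] [DecidableEq H] [Fintype β] [DecidableEq β]
    (g : Equiv.Perm H) (G : (H → β) → ℝ) :
    ∑ lab ∈ univ.filter (fun lab : H → β => ∀ h, lab (g h) = lab h), G lab =
      ∑ lab : Cyc g → β, G (fun h => lab (cyc g h)) := by
  symm
  have hinv : ∀ lab : H → β, (∀ h, lab (g h) = lab h) → ∀ h h', g.SameCycle h h' →
      lab h = lab h' := by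
    intro lab hl h h' hs
    obtain ⟨n, hn⟩ := hs
    have hnat : ∀ (k : ℕ) (x : H), lab ((g ^ k) x) = lab x := by
      intro k
      induction k with
      | zero =>
        intro x
        rfl
      | succ k ih =>
        intro x
        rw [pow_succ', Equiv.Perm.mul_apply, hl, ih]
    have hint : ∀ (n : ℤ) (x : H), lab ((g ^ n) x) = lab x := by
      intro n x
      rcases Int.eq_nat_or_neg n with ⟨k, hk | hk⟩
      · rw [hk, zpow_natCast, hnat]
      · rw [hk, zpow_neg, zpow_natCast]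
        have h1 := hnat k ((g ^ k)⁻¹ x)
        have h2 : (g ^ k) ((g ^ k)⁻¹ x) = x := (g ^ k).apply_symm_apply x
        rw [h2] at h1
        exact h1.symm
    rw [← hn, hint]
  refine Finset.sum_bij (fun (lab : Cyc g → β) _ => (fun h => lab (cyc g h))) ?_ ?_ ?_ ?_
  · intro lab _
    rw [Finset.mem_filter]
    refine ⟨Finset.mem_univ _, fun h => ?_⟩
    have h1 : cyc g (g h) = cyc g h := by
      unfold cyc
      exact Quotient.sound (show g.SameCycle (g h) h from ⟨-1, by simp⟩)
    show lab (cyc g (g h)) = lab (cyc g h)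
    rw [h1]
  · intro lab _ lab' _ h
    funext c
    have h1 := congrFun h c.rep
    simp only [cyc_rep] at h1
    exact h1
  · intro lab hlab
    rw [Finset.mem_filter] at hlab
    refine ⟨fun c => lab c.rep, Finset.mem_univ _, ?_⟩
    funext h
    apply hinv lab hlab.2
    have h1 : cyc g (cyc g h).rep = cyc g h := cyc_rep g _
    exact Quotient.exact h1
  · intro lab _
    rfl

theorem PKs_eq {H : Type} [Fintype H] (σ : Equiv.Perm H) (N : ℕ) (s : Fin N → ℝ)
    (hs : ∀ i, 0 < s i) :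
    PKs σ N s = ∑ τ : Prg H, ∑ lab : Cyc (σ * τ.1) → Fin N,
      JM (MT σ τ.1) (fun f p => Real.exp (-(s (lab f) * p))) := by
  classical
  unfold PKs
  have h1 : ∀ τ : Equiv.Perm H, IsPairing τ →
      (∑ lab ∈ univ.filter (fun lab : H → Fin N => ∀ h, lab ((σ * τ) h) = lab h),
        ∏ e : Cyc τ, 1 / (s (lab e.rep) + s (lab (τ e.rep)))) =
      ∑ lab : Cyc (σ * τ) → Fin N,
        JM (MT σ τ) (fun f p => Real.exp (-(s (lab f) * p))) := by
    intro τ hτ
    rw [lab_sum (σ * τ) (fun lab => ∏ e : Cyc τ, 1 / (s (lab e.rep) + s (lab (τ e.rep))))]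
    refine Finset.sum_congr rfl (fun lab _ => ?_)
    rw [JM_exp (MT σ τ) (MT_col σ τ hτ) (fun f => s (lab f)) (fun f => hs _)]
    refine Finset.prod_congr rfl (fun e _ => ?_)
    rw [MT_sum σ τ hτ (fun f => s (lab f)) e]
  rw [Finset.sum_congr rfl (fun τ hτ => h1 τ (Finset.mem_filter.mp hτ).2)]
  symm
  refine Finset.sum_bij (fun (τ : Prg H) _ => τ.1) ?_ ?_ ?_ ?_
  · intro τ _
    rw [Finset.mem_filter]
    exact ⟨Finset.mem_univ _, τ.2⟩
  · intro τ _ τ' _ h
    exact Subtype.ext h
  · intro τ hτ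
    exact ⟨⟨τ, (Finset.mem_filter.mp hτ).2⟩, Finset.mem_univ _, rfl⟩
  · intro τ _
    rfl

end Pool.Agent.Helper12.MVP
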