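import Pool.Agent.Helper12.MVP.Defs

/-!
MV-P14. Pairings of a finite set `F` and bijections `F ≃ Fin m × Bool`.

Proofs. `prOf e f = e.symm (flip (e f))` is an involution without fixed points. For a pairing `β` of `F`, `|F| = 2m`, the set of `e` with
`prOf e = β` has `2^m m!` elements: such `e` correspond to pairs (bijection `c : Fin m ≃ Cyc β` [there are `m` cycles, all of size 2],
choice of an element `e.symm (i, false)` of the cycle `c i` for every `i`): the number is `m! · 2^m`. (Alternatively: the group
`Perm (Fin m) × (Fin m → Bool)` acts simply transitively on the set.) If `|F| ≠ 2m` there is no bijection. `pairing_even`: a fixed point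
free involution (e.g. from the count of cycles, or `Equiv.Perm` cycle type, or `Finset.card_involution`-like lemma,
`Function.Involutive.card_fixedPoints`...).
`prod_prOf`: the cycles of `prOf e` correspond to `Fin m` (`c ↦ (e c.rep).1`, inverse `i ↦ cyc (e.symm (i,false))`), and for
`i = (e c.rep).1` the unordered pair `{c.rep, prOf e c.rep}` is `{e.symm (i,false), e.symm (i,true)}`; use the symmetry of `Φ`.
-/

namespace Pool.Agent.Helper12.MVP

open Finset Pool.Agent.Helper60.MV

theorem prOf_pairing {F : Type} {m : ℕ} (e : F ≃ Fin m × Bool) : IsPairing (prOf e) := by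
  refine ⟨fun h => ?_, fun h hh => ?_⟩
  · show e.symm ((e (e.symm ((e h).1, !(e h).2))).1, !(e (e.symm ((e h).1, !(e h).2))).2) = h
    simp
  · have h1 : e.symm ((e h).1, !(e h).2) = h := hh
    rw [Equiv.symm_apply_eq] at h1
    have h2 := congrArg Prod.snd h1
    simp only at h2
    cases h3 : (e h).2 <;> rw [h3] at h2 <;> simp at h2

theorem pairing_even {F : Type} [Fintype F] (β : Equiv.Perm F) (hβ : IsPairing β) :
    Even (Fintype.card F) := by
  have h : ∑ x ∈ (univ : Finset F), (1 : ZMod 2) = 0 := by
    refine Finset.sum_involution (fun a _ => β a) ?_ ?_ ?_ ?_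
    · intro a _
      decide
    · intro a _ _
      exact hβ.fpf a
    · intro a _
      exact mem_univ _
    · intro a _
      exact hβ.invol a
  rw [Finset.sum_const, Finset.card_univ, nsmul_eq_mul, mul_one] at h
  rw [ZMod.natCast_eq_zero_iff] at h
  exact even_iff_two_dvd.mpr h

private theorem cyc_rep {H : Type} {g : Equiv.Perm H} (c : Cyc g) : cyc g c.rep = c :=
  Quotient.out_eq c

private theorem cyc_eq {H : Type} (g : Equiv.Perm H) (a b : H) :
    cyc g a = cyc g b ↔ g.SameCycle a b := by
  constructor
  · intro h
    exact Quotient.exact h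
  · intro h
    exact Quotient.sound h

private theorem cyc_pairing {H : Type} {β : Equiv.Perm H} (hβ : IsPairing β) (a b : H) :
    cyc β a = cyc β b ↔ b = a ∨ b = β a := by
  rw [cyc_eq]
  constructor
  · rintro ⟨i, hi⟩
    have h2 : β * β = 1 := Equiv.ext fun h => hβ.invol h
    rcases Int.even_or_odd i with ⟨k, hk⟩ | ⟨k, hk⟩
    · left
      rw [hk, ← two_mul, zpow_mul] at hi
      have h3 : β ^ (2 : ℤ) = 1 := by
        rw [zpow_two]
        exact h2
      rw [h3, one_zpow] at hi
      exact hi.symm
    · right
      rw [hk, zpow_add, zpow_mul, zpow_one] at hi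
      have h3 : β ^ (2 : ℤ) = 1 := by
        rw [zpow_two]
        exact h2
      rw [h3, one_zpow, one_mul] at hi
      exact hi.symm
  · rintro (h | h)
    · rw [h]
    · exact ⟨1, by rw [zpow_one]; exact h.symm⟩

/-- a set with a pairing is a product with `Bool` -/
private noncomputable def baseE {F : Type} [DecidableEq F] {β : Equiv.Perm F}
    (hβ : IsPairing β) : F ≃ Cyc β × Bool where
  toFun f := (cyc β f, if f = (cyc β f).rep then false else true)
  invFun x := if x.2 then β x.1.rep else x.1.rep
  left_inv f := by
    by_cases h : f = (cyc β f).rep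
    · simp only [if_pos h]
      exact h.symm
    · simp only [if_neg h, if_true]
      have h1 := (cyc_pairing hβ (cyc β f).rep f).1 (cyc_rep _)
      rcases h1 with h1 | h1
      · exact absurd h1 h
      · exact h1.symm
  right_inv x := by
    obtain ⟨c, b⟩ := x
    cases b
    · have h1 : cyc β c.rep = c := cyc_rep c
      simp [h1]
    · have h1 : cyc β (β c.rep) = c := by
        have := (cyc_pairing hβ c.rep (β c.rep)).2 (Or.inr rfl)
        rw [← this]
        exact cyc_rep c
      have h2 : β c.rep ≠ c.rep := hβ.fpf _
      simp [h1, h2]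

private theorem baseE_apply {F : Type} [DecidableEq F] {β : Equiv.Perm F}
    (hβ : IsPairing β) (f : F) :
    baseE hβ (β f) = ((baseE hβ f).1, !(baseE hβ f).2) := by
  have h0 : cyc β (β f) = cyc β f := ((cyc_pairing hβ f (β f)).2 (Or.inr rfl)).symm
  have h1 := (cyc_pairing hβ (cyc β f).rep f).1 (cyc_rep _)
  show (cyc β (β f), if β f = (cyc β (β f)).rep then false else true)
    = (cyc β f, !(if f = (cyc β f).rep then false else true))
  rw [h0]
  rcases h1 with h1 | h1
  · have h2 : β f ≠ (cyc β f).rep := by
      rw [← h1]
      exact hβ.fpf f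
    rw [if_neg h2, if_pos h1]
    rfl
  · have h2 : f ≠ (cyc β f).rep := by
      intro h3
      have h4 := h1
      rw [← h3] at h4
      exact hβ.fpf f h4.symm
    have h3 : β f = (cyc β f).rep := by
      have := congrArg β h1
      rw [hβ.invol] at this
      exact this
    rw [if_pos h3, if_neg h2]
    rfl

/-- the equivalences commuting with the flips -/
private def flipE {Q : Type} {m : ℕ} :
    {g : Q × Bool ≃ Fin m × Bool // ∀ x, g (x.1, !x.2) = ((g x).1, !(g x).2)} ≃
      (Q ≃ Fin m) × (Q → Bool) where
  toFun g := ({ toFun := fun q => (g.1 (q, false)).1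
                invFun := fun i => (g.1.symm (i, false)).1
                left_inv := fun q => by
                  show (g.1.symm ((g.1 (q, false)).1, false)).1 = q
                  cases h : (g.1 (q, false)).2
                  · have h1 : g.1.symm ((g.1 (q, false)).1, false) = (q, false) := by
                      rw [Equiv.symm_apply_eq]
                      exact Prod.ext rfl h.symm
                    rw [h1]
                  · have h1 : g.1.symm ((g.1 (q, false)).1, false) = (q, true) := by
                      rw [Equiv.symm_apply_eq]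
                      have h2 := g.2 (q, false)
                      simp only [Bool.not_false, h, Bool.not_true] at h2
                      exact h2.symm
                    rw [h1]
                right_inv := fun i => by
                  show (g.1 ((g.1.symm (i, false)).1, false)).1 = i
                  cases h : (g.1.symm (i, false)).2
                  · have h1 : ((g.1.symm (i, false)).1, false) = g.1.symm (i, false) :=
                      Prod.ext rfl h.symm
                    rw [h1, Equiv.apply_symm_apply]
                  · have h2 := g.2 (g.1.symm (i, false))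
                    rw [h, Equiv.apply_symm_apply] at h2
                    simp only [Bool.not_true] at h2
                    rw [h2] },
              fun q => (g.1 (q, false)).2)
  invFun p := ⟨{ toFun := fun x => (p.1 x.1, xor x.2 (p.2 x.1))
                 invFun := fun y => (p.1.symm y.1, xor y.2 (p.2 (p.1.symm y.1)))
                 left_inv := fun x => by
                   refine Prod.ext ?_ ?_
                   · simp
                   · simp
                 right_inv := fun y => by
                   refine Prod.ext ?_ ?_
                   · simp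
                   · simp }, fun x => by
                refine Prod.ext rfl ?_
                show xor (!x.2) (p.2 x.1) = !(xor x.2 (p.2 x.1))
                cases x.2 <;> cases p.2 x.1 <;> rfl⟩
  left_inv g := by
    apply Subtype.ext
    apply Equiv.ext
    rintro ⟨q, b⟩
    cases b
    · show ((g.1 (q, false)).1, xor false (g.1 (q, false)).2) = g.1 (q, false)
      simp
    · show ((g.1 (q, false)).1, xor true (g.1 (q, false)).2) = g.1 (q, true)
      have h2 := g.2 (q, false)
      simp only [Bool.not_false] at h2
      rw [h2]
      simp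
  right_inv p := by
    refine Prod.ext ?_ ?_
    · apply Equiv.ext
      intro q
      rfl
    · funext q
      show xor false (p.2 q) = p.2 q
      simp

private theorem prOf_eq_iff {F : Type} [DecidableEq F] {m : ℕ} {β : Equiv.Perm F}
    (hβ : IsPairing β) (e : F ≃ Fin m × Bool) :
    prOf e = β ↔ ∀ x : Cyc β × Bool, ((baseE hβ).symm.trans e) (x.1, !x.2)
      = ((((baseE hβ).symm.trans e) x).1, !(((baseE hβ).symm.trans e) x).2) := by
  have hb : ∀ x : Cyc β × Bool, (baseE hβ).symm (x.1, !x.2) = β ((baseE hβ).symm x) := by
    intro x
    rw [Equiv.symm_apply_eq, baseE_apply, Equiv.apply_symm_apply]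
  constructor
  · intro h x
    rw [Equiv.trans_apply, Equiv.trans_apply, hb]
    have h1 := Equiv.congr_fun h ((baseE hβ).symm x)
    rw [← h1]
    show e (e.symm _) = _
    rw [Equiv.apply_symm_apply]
  · intro h
    apply Equiv.ext
    intro f
    have h1 := h (baseE hβ f)
    rw [Equiv.trans_apply, Equiv.trans_apply, hb, Equiv.symm_apply_apply] at h1
    show e.symm ((e f).1, !(e f).2) = β f
    rw [Equiv.symm_apply_eq, h1]

theorem prOf_count {F : Type} [Fintype F] [DecidableEq F] {m : ℕ} (hm : Fintype.card F = 2 * m)
    (β : Equiv.Perm F) (hβ : IsPairing β) :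
    (univ.filter (fun e : F ≃ Fin m × Bool => prOf e = β)).card = 2 ^ m * m.factorial := by
  classical
  have hQ : Fintype.card (Cyc β) = m := by
    have h1 := Fintype.card_congr (baseE hβ)
    rw [Fintype.card_prod, Fintype.card_bool] at h1
    omega
  have h1 : (univ.filter (fun e : F ≃ Fin m × Bool => prOf e = β)).card
      = Nat.card {e : F ≃ Fin m × Bool // prOf e = β} := by
    rw [Nat.card_eq_fintype_card, Fintype.card_subtype]
  rw [h1]
  let Ψ : {e : F ≃ Fin m × Bool // prOf e = β} ≃
      {g : Cyc β × Bool ≃ Fin m × Bool // ∀ x, g (x.1, !x.2) = ((g x).1, !(g x).2)} :=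
    { toFun := fun e => ⟨(baseE hβ).symm.trans e.1, (prOf_eq_iff hβ e.1).1 e.2⟩
      invFun := fun g => ⟨(baseE hβ).trans g.1, (prOf_eq_iff hβ _).2 (by
        have h2 : (baseE hβ).symm.trans ((baseE hβ).trans g.1) = g.1 := by
          apply Equiv.ext
          intro x
          simp
        rw [h2]
        exact g.2)⟩
      left_inv := fun e => by
        apply Subtype.ext
        apply Equiv.ext
        intro x
        simp
      right_inv := fun g => by
        apply Subtype.ext
        apply Equiv.ext
        intro x
        simp }
  rw [Nat.card_congr (Ψ.trans flipE), Nat.card_prod, Nat.card_eq_fintype_card,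
    Nat.card_eq_fintype_card, Fintype.card_fun, Fintype.card_bool, hQ]
  have h3 : Fintype.card (Cyc β ≃ Fin m) = m.factorial := by
    rw [Fintype.card_equiv (Fintype.equivFinOfCardEq hQ), hQ]
  rw [h3, mul_comm]

theorem sum_prOf {F : Type} [Fintype F] [DecidableEq F] (m : ℕ) (T : Prg F → ℝ) :
    ∑ e : F ≃ Fin m × Bool, T ⟨prOf e, prOf_pairing e⟩ =
      if Fintype.card F = 2 * m then (2 ^ m * m.factorial : ℝ) * ∑ β : Prg F, T β else 0 := by
  classical
  split_ifs with h
  · rw [← Finset.sum_fiberwise (univ : Finset (F ≃ Fin m × Bool))
      (fun e => (⟨prOf e, prOf_pairing e⟩ : Prg F)), Finset.mul_sum]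
    refine Finset.sum_congr rfl fun β _ => ?_
    have h1 : ∀ e ∈ univ.filter (fun e : F ≃ Fin m × Bool =>
        (⟨prOf e, prOf_pairing e⟩ : Prg F) = β), T ⟨prOf e, prOf_pairing e⟩ = T β := by
      intro e he
      rw [(Finset.mem_filter.1 he).2]
    rw [Finset.sum_congr rfl h1, Finset.sum_const, nsmul_eq_mul]
    have h2 : univ.filter (fun e : F ≃ Fin m × Bool =>
        (⟨prOf e, prOf_pairing e⟩ : Prg F) = β)
        = univ.filter (fun e : F ≃ Fin m × Bool => prOf e = β.1) := by
      refine Finset.filter_congr fun e _ => ?_
      constructor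
      · intro h3
        exact congrArg Subtype.val h3
      · intro h3
        exact Subtype.ext h3
    rw [h2, prOf_count h β.1 β.2]
    push_cast
    ring
  · haveI : IsEmpty (F ≃ Fin m × Bool) := by
      refine ⟨fun e => h ?_⟩
      have h1 := Fintype.card_congr e
      rw [Fintype.card_prod, Fintype.card_bool, Fintype.card_fin] at h1
      omega
    rw [Fintype.sum_empty]

theorem prod_prOf {F : Type} [Fintype F] [DecidableEq F] {m : ℕ} (e : F ≃ Fin m × Bool)
    (Φ : F → F → ℝ) (hs : ∀ a b, Φ a b = Φ b a) :
    ∏ c : Cyc (prOf e), Φ c.rep (prOf e c.rep) =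
      ∏ c : Fin m, Φ (e.symm (c, false)) (e.symm (c, true)) := by
  classical
  have hp := prOf_pairing e
  have h1 : ∀ f, (e (prOf e f)).1 = (e f).1 := by
    intro f
    show (e (e.symm ((e f).1, !(e f).2))).1 = (e f).1
    rw [Equiv.apply_symm_apply]
  refine Fintype.prod_bijective (fun c : Cyc (prOf e) => (e c.rep).1) ⟨?_, ?_⟩ _ _ ?_
  · intro c c' hcc
    have hcc' : (e c.rep).1 = (e c'.rep).1 := hcc
    rw [← cyc_rep c, ← cyc_rep c', cyc_pairing hp]
    by_cases h2 : (e c.rep).2 = (e c'.rep).2
    · left
      exact (e.injective (Prod.ext hcc' h2)).symm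
    · right
      show c'.rep = e.symm ((e c.rep).1, !(e c.rep).2)
      rw [Equiv.eq_symm_apply]
      refine Prod.ext hcc'.symm ?_
      show (e c'.rep).2 = !(e c.rep).2
      revert h2
      cases (e c.rep).2 <;> cases (e c'.rep).2 <;> simp
  · intro i
    refine ⟨cyc (prOf e) (e.symm (i, false)), ?_⟩
    show (e (cyc (prOf e) (e.symm (i, false))).rep).1 = i
    have h2 := cyc_rep (cyc (prOf e) (e.symm (i, false)))
    rw [cyc_pairing hp] at h2
    rcases h2 with h2 | h2
    · rw [← h2, Equiv.apply_symm_apply]
    · have h3 := h1 (cyc (prOf e) (e.symm (i, false))).rep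
      rw [← h2, Equiv.apply_symm_apply] at h3
      exact h3.symm
  · intro c
    show Φ c.rep (prOf e c.rep) = Φ (e.symm ((e c.rep).1, false)) (e.symm ((e c.rep).1, true))
    have h2 : prOf e c.rep = e.symm ((e c.rep).1, !(e c.rep).2) := rfl
    have h3 : c.rep = e.symm ((e c.rep).1, (e c.rep).2) := by
      rw [Prod.mk.eta, Equiv.symm_apply_apply]
    cases h4 : (e c.rep).2
    · rw [h4] at h2 h3
      rw [h2]
      nth_rewrite 1 [h3]
      rfl
    · rw [h4] at h2 h3
      rw [h2, hs]
      nth_rewrite 2 [h3]
      rfl

end Pool.Agent.Helper12.MVP
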