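import Pool.Agent.Helper12.MVP.Bij
import Pool.Agent.Helper12.MVP.GaussL
import Pool.Agent.Helper12.MVP.CeLim
import Pool.Agent.Helper12.MVP.Sym
import Pool.Agent.Helper12.MVP.Haf

/-!
MV-P16. Assembly of block P.

`level`: for each `m`, multiply `bij_all` (`α = Fin m × Bool`, `g (c,b) = tentE ε (· - a_c)`, `r = ε + ∑ |a_c|`) by `∏ phi (a_c)` and
integrate over `a`: left `∑_τ ∑_{lab : Face ≃ Fin m × Bool} ∫_x ∏_c kern ..` (`gaussL`), by `prod_prOf`, `sum_prOf` it is `2^m m!` times the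
sum over the configurations with `2m` faces; right by `gaussR` and `hfL_sum` `2^m m!` times the sum over the monomials of degree `2m` of
`coeff · hfL (Ce ε)`. `ZZ_formula`: sum over `m`.
-/

namespace Pool.Agent.Helper12.MVP

open Finset MeasureTheory Filter Topology Pool.Agent.Helper60.MV

theorem A_eq {H : Type} [Fintype H] {σ : Equiv.Perm H} (R : Conf σ) (ε : ℝ) :
    R.A ε 0 = ∫ x in {x : Cyc R.τ → ℝ | ∀ e, 0 < x e},
      ∏ c : Cyc R.β, kern ε (row (MT σ R.τ) c.rep x) (row (MT σ R.τ) (R.β c.rep) x) := by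
  unfold Conf.A AM
  apply integral_congr_ae
  refine Filter.Eventually.of_forall (fun x => ?_)
  refine Finset.prod_congr rfl (fun c _ => ?_)
  have h0 : ∀ b, (∑ e, (R.P c b e : ℝ) * x e + (0 : R.Face → ℝ) (R.cface c b)) =
      row (MT σ R.τ) (R.cface c b) x := by
    intro b
    simp only [Pi.zero_apply, add_zero]
    rfl
  simp only [h0]
  rfl

/-- configurations as pairs -/
def confEquiv {H : Type} (σ : Equiv.Perm H) :
    Conf σ ≃ Σ τ : Prg H, Prg (Cyc (σ * τ.1)) where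
  toFun R := ⟨⟨R.τ, R.hτ⟩, ⟨R.β, R.hβ⟩⟩
  invFun p := ⟨p.1.1, p.1.2, p.2.1, p.2.2⟩
  left_inv _ := rfl
  right_inv _ := rfl

/-- the volume of a pairing `β` of the faces of `τ` -/
noncomputable def vol {H : Type} [Fintype H] (σ : Equiv.Perm H) (ε : ℝ) (τ : Prg H)
    (β : Prg (Cyc (σ * τ.1))) : ℝ :=
  ∫ x in {x : Cyc τ.1 → ℝ | ∀ e, 0 < x e},
    ∏ c : Cyc β.1, kern ε (row (MT σ τ.1) c.rep x) (row (MT σ τ.1) (β.1 c.rep) x)

theorem ZZ_eq {H : Type} [Fintype H] (σ : Equiv.Perm H) (ε : ℝ) :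
    ZZ σ ε = ∑ τ : Prg H, ∑ β : Prg (Cyc (σ * τ.1)),
      ∫ x in {x : Cyc τ.1 → ℝ | ∀ e, 0 < x e},
        ∏ c : Cyc β.1, kern ε (row (MT σ τ.1) c.rep x) (row (MT σ τ.1) (β.1 c.rep) x) := by
  unfold ZZ
  rw [← Fintype.sum_sigma']
  refine Fintype.sum_equiv (confEquiv σ) _ _ (fun R => ?_)
  exact A_eq R ε

theorem level_left {H : Type} [Fintype H] (σ : Equiv.Perm H) (ε : ℝ) (hε : 0 < ε) (m : ℕ) :
    ∫ a : Fin m → ℝ, (∏ c, phi (a c)) * (∑ τ : Prg H, ∑ lab : Cyc (σ * τ.1) ≃ Fin m × Bool,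
      JM (MT σ τ.1) (fun f p => tentE ε (p - a (lab f).1))) =
    (2 ^ m * m.factorial : ℝ) * ∑ τ : Prg H, if Fintype.card (Cyc (σ * τ.1)) = 2 * m then
      ∑ β : Prg (Cyc (σ * τ.1)), vol σ ε τ β else 0 := by
  have h1 : ∀ a : Fin m → ℝ, (∏ c, phi (a c)) * (∑ τ : Prg H,
      ∑ lab : Cyc (σ * τ.1) ≃ Fin m × Bool,
        JM (MT σ τ.1) (fun f p => tentE ε (p - a (lab f).1))) =
      ∑ τ : Prg H, ∑ lab : Cyc (σ * τ.1) ≃ Fin m × Bool,
        (∏ c, phi (a c)) * JM (MT σ τ.1) (fun f p => tentE ε (p - a (lab f).1)) := by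
    intro a
    rw [Finset.mul_sum]
    refine Finset.sum_congr rfl (fun τ _ => ?_)
    rw [Finset.mul_sum]
  simp only [h1]
  rw [integral_finsetSum _ (fun τ _ => integrable_finsetSum _ (fun lab _ =>
    gaussL_integrable (MT σ τ.1) (MT_col σ τ.1 τ.2) lab ε hε)), Finset.mul_sum]
  refine Finset.sum_congr rfl (fun τ _ => ?_)
  rw [integral_finsetSum _ (fun lab _ =>
    gaussL_integrable (MT σ τ.1) (MT_col σ τ.1 τ.2) lab ε hε)]
  have h2 : ∀ lab : Cyc (σ * τ.1) ≃ Fin m × Bool,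
      ∫ a : Fin m → ℝ, (∏ c, phi (a c)) *
        JM (MT σ τ.1) (fun f p => tentE ε (p - a (lab f).1)) =
      vol σ ε τ ⟨prOf lab, prOf_pairing lab⟩ := by
    intro lab
    rw [gaussL (MT σ τ.1) (MT_col σ τ.1 τ.2) lab ε hε]
    unfold vol
    apply integral_congr_ae
    refine Filter.Eventually.of_forall (fun x => ?_)
    exact (prod_prOf lab (fun f f' => kern ε (row (MT σ τ.1) f x) (row (MT σ τ.1) f' x))
      (fun f f' => kern_symm ε _ _)).symm
  simp only [h2]
  rw [sum_prOf m (fun β => vol σ ε τ β)]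
  split_ifs <;> simp

theorem level_right (R : MvPolynomial ℕ ℝ) (ε : ℝ) (hε : 0 < ε) (m : ℕ) :
    ∫ a : Fin m → ℝ, (∏ c, phi (a c)) *
      perR (fun (i : Fin m × Bool) k => mom k (fun p => tentE ε (p - a i.1))) R =
    (2 ^ m * m.factorial : ℝ) * ∑ μ ∈ R.support, if μ.toMultiset.toList.length = 2 * m then
        R.coeff μ * hfL (Ce ε) μ.toMultiset.toList else 0 := by
  have h1 : ∀ a : Fin m → ℝ, (∏ c, phi (a c)) *
      perR (fun (i : Fin m × Bool) k => mom k (fun p => tentE ε (p - a i.1))) R =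
      ∑ μ ∈ R.support, ∑ π : Fin μ.toMultiset.toList.length ≃ Fin m × Bool,
        R.coeff μ * ((∏ c, phi (a c)) *
          ∏ j, mom (μ.toMultiset.toList.get j) (fun p => tentE ε (p - a (π j).1))) := by
    intro a
    unfold perR perL
    rw [Finset.mul_sum]
    refine Finset.sum_congr rfl (fun μ _ => ?_)
    rw [Finset.mul_sum, Finset.mul_sum]
    refine Finset.sum_congr rfl (fun π _ => ?_)
    ring
  simp only [h1]
  rw [integral_finsetSum _ (fun μ _ => integrable_finsetSum _ (fun π _ =>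
    (gaussR_integrable π (fun j => μ.toMultiset.toList.get j) ε hε).const_mul _)),
    Finset.mul_sum]
  refine Finset.sum_congr rfl (fun μ _ => ?_)
  rw [integral_finsetSum _ (fun π _ =>
    (gaussR_integrable π (fun j => μ.toMultiset.toList.get j) ε hε).const_mul _)]
  have h2 : ∀ π : Fin μ.toMultiset.toList.length ≃ Fin m × Bool,
      ∫ a : Fin m → ℝ, R.coeff μ * ((∏ c, phi (a c)) *
          ∏ j, mom (μ.toMultiset.toList.get j) (fun p => tentE ε (p - a (π j).1))) =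
      R.coeff μ * ∏ c : Fin m, Ce ε (μ.toMultiset.toList.get (π.symm (c, false)))
        (μ.toMultiset.toList.get (π.symm (c, true))) := by
    intro π
    rw [integral_const_mul, gaussR π (fun j => μ.toMultiset.toList.get j) ε hε]
  simp only [h2]
  rw [← Finset.mul_sum, hfL_sum (Ce ε) (Ce_symm ε)]
  split_ifs
  · ring
  · simp

theorem level {H : Type} [Fintype H] (σ : Equiv.Perm H) (R : MvPolynomial ℕ ℝ)
    (hR : DProp σ R) (ε : ℝ) (hε : 0 < ε) (m : ℕ) :
    (∑ τ : Prg H, if Fintype.card (Cyc (σ * τ.1)) = 2 * m then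
      ∑ β : Prg (Cyc (σ * τ.1)), ∫ x in {x : Cyc τ.1 → ℝ | ∀ e, 0 < x e},
        ∏ c : Cyc β.1, kern ε (row (MT σ τ.1) c.rep x) (row (MT σ τ.1) (β.1 c.rep) x) else 0) =
      ∑ μ ∈ R.support, if μ.toMultiset.toList.length = 2 * m then
        R.coeff μ * hfL (Ce ε) μ.toMultiset.toList else 0 := by
  have hpos : (2 ^ m * m.factorial : ℝ) ≠ 0 := by positivity
  apply mul_left_cancel₀ hpos
  rw [← level_right R ε hε m]
  have h := level_left σ ε hε m
  unfold vol at h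
  rw [← h]
  apply integral_congr_ae
  refine Filter.Eventually.of_forall (fun a => ?_)
  show _ * _ = _ * _
  congr 1
  refine bij_all σ R hR (fun (i : Fin m × Bool) p => tentE ε (p - a i.1)) ?_
    (ε + ∑ c, |a c|) ?_
  · intro i
    exact (tentE_continuous ε).comp (continuous_id.sub continuous_const)
  · intro i p hp
    apply tentE_zero ε hε
    have h1 : |a i.1| ≤ ∑ c, |a c| :=
      Finset.single_le_sum (f := fun c => |a c|) (fun c _ => abs_nonneg _) (Finset.mem_univ i.1)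
    have h2 := le_abs_self (a i.1)
    refine le_trans ?_ (le_abs_self _)
    linarith

theorem ZZ_formula {H : Type} [Fintype H] (σ : Equiv.Perm H) (R : MvPolynomial ℕ ℝ)
    (hR : DProp σ R) (ε : ℝ) (hε : 0 < ε) :
    ZZ σ ε = ∑ μ ∈ R.support, R.coeff μ * hfL (Ce ε) μ.toMultiset.toList := by
  classical
  rw [ZZ_eq]
  obtain ⟨n, hn1, hn2⟩ : ∃ n : ℕ, (∀ τ : Prg H, Fintype.card (Cyc (σ * τ.1)) < 2 * n) ∧
      (∀ μ ∈ R.support, μ.toMultiset.toList.length < 2 * n) := by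
    refine ⟨(∑ τ : Prg H, Fintype.card (Cyc (σ * τ.1))) +
      (∑ μ ∈ R.support, μ.toMultiset.toList.length) + 1, ?_, ?_⟩
    · intro τ
      have h := Finset.single_le_sum (f := fun τ : Prg H => Fintype.card (Cyc (σ * τ.1)))
        (fun _ _ => Nat.zero_le _) (Finset.mem_univ τ)
      omega
    · intro μ hμ
      have h := Finset.single_le_sum
        (f := fun μ : ℕ →₀ ℕ => μ.toMultiset.toList.length)
        (fun _ _ => Nat.zero_le _) hμ
      omega
  have h := Finset.sum_congr (rfl : range n = range n) (fun m _ => level σ R hR ε hε m)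
  rw [Finset.sum_comm, Finset.sum_comm (s := range n) (t := R.support)] at h
  have key : ∀ (c : ℕ) (x : ℝ), (Odd c → x = 0) → c < 2 * n →
      (∑ m ∈ range n, if c = 2 * m then x else 0) = x := by
    intro c x hodd hc
    rcases Nat.even_or_odd c with he | ho
    · obtain ⟨d, hd⟩ := he
      rw [Finset.sum_eq_single d]
      · rw [if_pos (by omega)]
      · intro b _ hb
        rw [if_neg (by omega)]
      · intro hd'
        exact absurd (Finset.mem_range.mpr (by omega)) hd'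
    · rw [hodd ho]
      simp
  have hL : ∀ τ : Prg H, (∑ m ∈ range n, if Fintype.card (Cyc (σ * τ.1)) = 2 * m then
      ∑ β : Prg (Cyc (σ * τ.1)), ∫ x in {x : Cyc τ.1 → ℝ | ∀ e, 0 < x e},
        ∏ c : Cyc β.1, kern ε (row (MT σ τ.1) c.rep x) (row (MT σ τ.1) (β.1 c.rep) x) else 0) =
      ∑ β : Prg (Cyc (σ * τ.1)), ∫ x in {x : Cyc τ.1 → ℝ | ∀ e, 0 < x e},
        ∏ c : Cyc β.1, kern ε (row (MT σ τ.1) c.rep x) (row (MT σ τ.1) (β.1 c.rep) x) := by
    intro τ
    refine key _ _ ?_ (hn1 τ)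
    intro ho
    have : IsEmpty (Prg (Cyc (σ * τ.1))) := by
      constructor
      intro β
      exact (Nat.not_even_iff_odd.mpr ho) (pairing_even β.1 β.2)
    simp
  have hRr : ∀ μ ∈ R.support, (∑ m ∈ range n, if μ.toMultiset.toList.length = 2 * m then
        R.coeff μ * hfL (Ce ε) μ.toMultiset.toList else 0) =
      R.coeff μ * hfL (Ce ε) μ.toMultiset.toList := by
    intro μ hμ
    refine key _ _ ?_ (hn2 μ hμ)
    intro ho
    rw [hfL_odd _ _ ho, mul_zero]
  rw [Finset.sum_congr rfl (fun τ _ => hL τ), Finset.sum_congr rfl hRr] at h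
  exact h

theorem blockP_gen {H : Type} [Fintype H] (σ : Equiv.Perm H) (R : MvPolynomial ℕ ℝ)
    (hR : DProp σ R) : Tendsto (fun ε => ZZ σ ε) (𝓝[>] (0:ℝ)) (𝓝 (Wick R)) := by
  have h1 : Tendsto (fun ε => ∑ μ ∈ R.support, R.coeff μ * hfL (Ce ε) μ.toMultiset.toList)
      (𝓝[>] (0:ℝ)) (𝓝 (Wick R)) := by
    unfold Wick
    refine tendsto_finsetSum _ (fun μ _ => ?_)
    exact (hfL_tendsto (𝓝[>] (0:ℝ)) Ce Cov Ce_tendsto _).const_mul _
  refine h1.congr' ?_
  filter_upwards [self_mem_nhdsWithin] with ε hε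
  exact (ZZ_formula σ R hR ε hε).symm

theorem blockP_of_D {ρ : Type} [Fintype ρ] (K : ρ → ℕ)
    (hD : ∀ (N : ℕ) (_ : Even N) (s : Fin N → ℝ) (_ : ∀ i, 0 < s i),
      PK K N s = MvPolynomial.eval (fun k => ∑ i, (1 / s i) ^ (2 * k + 1)) (Rpoly K)) :
    Tendsto (fun ε => ZZ (rot K) ε) (𝓝[>] (0:ℝ)) (𝓝 (Ypoly K)) := by
  unfold Ypoly
  apply blockP_gen
  intro N hN s hs
  rw [← hD N hN s hs]
  unfold PKs PK
  congr! 2
  · ext
    simp
  · classical
    ext
    rw [Finset.mem_filter, Finset.mem_filter]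
    exact ⟨fun h => ⟨@Finset.mem_univ _ (_) _, h.2⟩, fun h => ⟨@Finset.mem_univ _ (_) _, h.2⟩⟩

end Pool.Agent.Helper12.MVP
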