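import Pool.Agent.Helper12.MVP.Lab

/-!
MV-P7. The polynomial identity in the multiplicities.

Proofs. `sum_lab_mult`: group the `lab : F → Fin N` by `f ↦ (π (lab f)).1`; the fibre over `lab' : F → α` is `∏_f Fin (m (lab' f))`
(e.g. `Fintype.sum_equiv` with `(F → Σ i, Fin (m i)) ≃ Σ lab' : F → α, (∀ f, Fin (m (lab' f)))`, `Equiv.piSigma`-like; or
`Finset.sum_fiberwise` and `Fintype.card_pi`; or: both sides are equal for `G` replaced by products of indicator functions...).
`poly_id`: both sides are polynomials over `ℝ` in the variables `α`. Evaluate at `x i = m i` with `m : α → ℕ` even: put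
`N = ∑ m i` (even), `π : Fin N ≃ Σ i, Fin (m i)` (both have the cardinality `∑ m i`: `Fintype.equivOfCardEq`), `s' j = s (π j).1`. By `hR`
and `PKs_eq`, `∑_τ ∑_{lab : Face → Fin N} JM(e^{-s' (lab f) p}) = R(t_k = ∑_j (1/s'_j)^{2k+1})`; the left side is
`∑_τ ∑_{lab : Face → α} ∏_f m(lab f) · JM(e^{-s(lab f) p})` by `sum_lab_mult`, which is the value at `m` of the left polynomial, and
`∑_j (1/s'_j)^{2k+1} = ∑_i m_i (1/s_i)^{2k+1}`, so the right side is the value of the right polynomial. Since the set of even natural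
numbers is infinite in `ℝ`, the polynomials are equal (`MvPolynomial.funext_set`, or `MvPolynomial.funext` after the substitution, or a
similar lemma).
-/

namespace Pool.Agent.Helper12.MVP

open Finset MeasureTheory Filter Topology Pool.Agent.Helper60.MV

private theorem pid_card {α : Type} [Fintype α] [DecidableEq α] (m : α → ℕ) (N : ℕ)
    (π : Fin N ≃ Σ i : α, Fin (m i)) (i : α) :
    (univ.filter (fun x : Fin N => (π x).1 = i)).card = m i := by
  classical
  have h1 : (univ.filter (fun x : Fin N => (π x).1 = i)).card =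
      (univ.filter (fun y : (Σ i : α, Fin (m i)) => y.1 = i)).card := by
    refine Finset.card_equiv π ?_
    intro x
    simp
  have h2 : (univ.filter (fun y : (Σ i : α, Fin (m i)) => y.1 = i)).card =
      (univ : Finset (Fin (m i))).card := by
    symm
    refine Finset.card_bij (fun a _ => (⟨i, a⟩ : Σ i : α, Fin (m i))) ?_ ?_ ?_
    · intro a _
      simp
    · intro a _ b _ h
      simpa using h
    · rintro ⟨j, b⟩ hb
      have hj : j = i := by simpa using hb
      subst hj
      exact ⟨b, mem_univ _, rfl⟩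
  rw [h1, h2, Finset.card_univ, Fintype.card_fin]

theorem sum_lab_mult {F α : Type} [Fintype F] [DecidableEq F] [Fintype α] [DecidableEq α]
    (m : α → ℕ) (N : ℕ) (π : Fin N ≃ Σ i : α, Fin (m i)) (G : (F → α) → ℝ) :
    ∑ lab : F → Fin N, G (fun f => (π (lab f)).1) =
      ∑ lab : F → α, (∏ f, (m (lab f) : ℝ)) * G lab := by
  classical
  rw [← Finset.sum_fiberwise univ (fun (lab : F → Fin N) (f : F) => (π (lab f)).1)]
  refine Finset.sum_congr rfl ?_
  intro lab' _
  have h1 : ∀ lab ∈ univ.filter (fun lab : F → Fin N => (fun f => (π (lab f)).1) = lab'),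
      G (fun f => (π (lab f)).1) = G lab' := by
    intro lab hl
    rw [(Finset.mem_filter.1 hl).2]
  rw [Finset.sum_congr rfl h1, Finset.sum_const, nsmul_eq_mul]
  congr 1
  have h2 : univ.filter (fun lab : F → Fin N => (fun f => (π (lab f)).1) = lab') =
      Fintype.piFinset (fun f => univ.filter (fun x : Fin N => (π x).1 = lab' f)) := by
    ext lab
    simp only [Finset.mem_filter, Finset.mem_univ, true_and, Fintype.mem_piFinset]
    exact funext_iff
  rw [h2, Fintype.card_piFinset, Nat.cast_prod]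
  refine Finset.prod_congr rfl ?_
  intro f _
  rw [pid_card]

theorem poly_id {H : Type} [Fintype H] (σ : Equiv.Perm H) (R : MvPolynomial ℕ ℝ)
    (hR : DProp σ R) {α : Type} [Fintype α] [DecidableEq α] (s : α → ℝ) (hs : ∀ i, 0 < s i) :
    (∑ τ : Prg H, ∑ lab : Cyc (σ * τ.1) → α,
      MvPolynomial.C (JM (MT σ τ.1) (fun f p => Real.exp (-(s (lab f) * p)))) *
        ∏ f, (MvPolynomial.X (lab f) : MvPolynomial α ℝ)) =
      MvPolynomial.aeval (fun k : ℕ => ∑ i : α, MvPolynomial.C ((1 / s i) ^ (2 * k + 1)) *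
        (MvPolynomial.X i : MvPolynomial α ℝ)) R := by
  classical
  refine MvPolynomial.funext_set (fun _ : α => Set.range (fun n : ℕ => ((2 * n : ℕ) : ℝ)))
    (fun _ => Set.infinite_range_of_injective ?_) ?_
  · intro a b hab
    have h0 : ((2 * a : ℕ) : ℝ) = ((2 * b : ℕ) : ℝ) := hab
    have : (2 * a : ℕ) = 2 * b := by exact_mod_cast h0
    omega
  · intro x hx
    have hx' : ∀ i, ∃ n : ℕ, ((2 * n : ℕ) : ℝ) = x i := fun i => hx i (Set.mem_univ i)
    choose n hn using hx'
    let m : α → ℕ := fun i => 2 * n i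
    have hm : ∀ i, (m i : ℝ) = x i := hn
    let N : ℕ := ∑ i, m i
    have hN : Even N := by
      refine Finset.even_sum _ ?_
      intro i _
      exact even_two_mul _
    let π : Fin N ≃ Σ i : α, Fin (m i) := Fintype.equivOfCardEq (by simp [N])
    let s' : Fin N → ℝ := fun j => s (π j).1
    have h1 := hR N hN s' (fun j => hs _)
    rw [PKs_eq σ N s' (fun j => hs _)] at h1
    have hL : ∀ τ : Prg H, ∑ lab : Cyc (σ * τ.1) → Fin N,
        JM (MT σ τ.1) (fun f p => Real.exp (-(s' (lab f) * p))) =
        ∑ lab : Cyc (σ * τ.1) → α, (∏ f, (m (lab f) : ℝ)) *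
          JM (MT σ τ.1) (fun f p => Real.exp (-(s (lab f) * p))) := fun τ =>
      sum_lab_mult m N π
        (fun lab : Cyc (σ * τ.1) → α => JM (MT σ τ.1) (fun f p => Real.exp (-(s (lab f) * p))))
    have hK : ∀ k : ℕ, ∑ j : Fin N, (1 / s' j) ^ (2 * k + 1) =
        ∑ i, (1 / s i) ^ (2 * k + 1) * x i := by
      intro k
      have e1 : ∑ j : Fin N, (1 / s' j) ^ (2 * k + 1) =
          ∑ y : (Σ i : α, Fin (m i)), (1 / s y.1) ^ (2 * k + 1) :=
        Equiv.sum_comp π (fun y : (Σ i : α, Fin (m i)) => (1 / s y.1) ^ (2 * k + 1))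
      rw [e1, Fintype.sum_sigma]
      refine Finset.sum_congr rfl ?_
      intro i _
      change ∑ _y : Fin (m i), (1 / s i) ^ (2 * k + 1) = _
      rw [Finset.sum_const, Finset.card_univ, Fintype.card_fin, nsmul_eq_mul, hm, mul_comm]
    rw [Finset.sum_congr rfl (fun τ _ => hL τ)] at h1
    have hR2 : MvPolynomial.eval x (MvPolynomial.aeval (fun k : ℕ => ∑ i : α,
        MvPolynomial.C ((1 / s i) ^ (2 * k + 1)) * (MvPolynomial.X i : MvPolynomial α ℝ)) R) =
        MvPolynomial.eval (fun k => ∑ j : Fin N, (1 / s' j) ^ (2 * k + 1)) R := by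
      rw [← MvPolynomial.coe_aeval_eq_eval, ← MvPolynomial.coe_aeval_eq_eval]
      rw [RingHom.coe_coe, RingHom.coe_coe, ← AlgHom.comp_apply, MvPolynomial.comp_aeval]
      congr 2
      funext k
      rw [hK]
      simp
    rw [hR2, ← h1]
    simp only [map_sum, map_mul, MvPolynomial.eval_C, map_prod, MvPolynomial.eval_X]
    refine Finset.sum_congr rfl ?_
    intro τ _
    refine Finset.sum_congr rfl ?_
    intro lab _
    rw [mul_comm]
    congr 1
    refine Finset.prod_congr rfl ?_
    intro f _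
    rw [hm]

end Pool.Agent.Helper12.MVP
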